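import Pool.Agent.R537.RN.NF

/-!
# The effective compact normal form for sentences `∃ x ∀ y ∃ z`
-/

set_option autoImplicit false

namespace Pool.Agent.R537.RN

open Finset Filter Topology Pool.Agent.H612 Pool.Agent.NPC

variable {n m l : ℕ} (loc : ℕ → Fin n ⊕ (Fin m ⊕ Fin l)) (S : List ER.Con)

theorem step3 {K : Type} [CommRing K] [Nontrivial K] {T : Type} [TopologicalSpace T]
    (L : Lvl K T) (nr : RNorm K) (hpos : ∀ c : K, c ≠ 0 → 1 ≤ nr.ν c) (σ : K)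
    (hσ : nr.ν σ ≤ 2) :
    ∃ Q : Polynomial K, Q ≠ 0 ∧ nr.poly.ν Q ≤ 2 ^ 2 ^ kap'' n m l S.length ∧
      ∃ b : T → ℝ, Continuous b ∧ (∀ t, Q.eval₂ (L.φ t) (b t) = 0) ∧
        ∀ t, Good loc S (L.φ t σ) ↔ b t ≤ 0 := by
  obtain ⟨κ, hκ⟩ : ∃ κ, κ = kap l S.length := ⟨_, rfl⟩
  obtain ⟨κ', hκ'⟩ : ∃ κ', κ' = kap' m l S.length := ⟨_, rfl⟩
  obtain ⟨F, hFdef⟩ : ∃ F : MvPolynomial (Fin (l + 1)) (MvPolynomial (Fin (m + 2))
      (MvPolynomial (Fin n) K)), F =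
      Phi loc S (MvPolynomial.C (MvPolynomial.C (MvPolynomial.C σ)))
        ((MvPolynomial.C (MvPolynomial.X 0)) ^ 2)
        (MvPolynomial.C (MvPolynomial.X 1)) ((MvPolynomial.X 0) ^ 2)
        (((MvPolynomial.X 0) ^ 2) ^ (2 ^ κ)) (((MvPolynomial.C (MvPolynomial.X 0)) ^ 2) ^ (2 ^ κ'))
        (fun j => MvPolynomial.C (MvPolynomial.C (MvPolynomial.X j)))
        (fun j => MvPolynomial.C (MvPolynomial.X j.succ.succ)) (fun j => MvPolynomial.X j.succ) :=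
    ⟨_, rfl⟩
  have hF : ∀ s, (((L.ext n).ext (m + 2)).ext (l + 1)).φ s F =
      Phi loc S (L.φ s.1.1.1 σ) ((s.1.2 0) ^ 2) (s.1.2 1) ((s.2 0) ^ 2)
        (((s.2 0) ^ 2) ^ (2 ^ κ)) (((s.1.2 0) ^ 2) ^ (2 ^ κ')) s.1.1.2
        (fun j => s.1.2 j.succ.succ) (fun j => s.2 j.succ) := by
    intro s
    rw [hFdef, Phi_map]
    simp only [ext_φ_C, ext_φ_X, map_pow]
  have hFν : (wm (wm (wm nr n) (m + 2)) (l + 1)).ν F ≤
      188743680 * S.length + 65536 * 4 ^ 2 ^ κ + 32 * 4 ^ 2 ^ κ' := by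
    rw [hFdef]
    have hX2 : (wm (wm (wm nr n) (m + 2)) (l + 1)).ν ((MvPolynomial.X 0) ^ 2) ≤ 4 :=
      ν_pow _ _ 2 2 (wm_X _ _)
    have hr2 : (wm (wm (wm nr n) (m + 2)) (l + 1)).ν
        ((MvPolynomial.C (MvPolynomial.X 0)) ^ 2) ≤ 4 :=
      ν_pow _ _ 2 2 (by rw [wm_C]; exact wm_X _ _)
    apply Phi_ν
    · rw [wm_C, wm_C, wm_C]; exact hσ
    · exact hr2
    · rw [wm_C]; exact wm_X _ _
    · exact hX2
    · exact ν_pow _ _ _ _ hX2
    · exact ν_pow _ _ _ _ hr2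
    · intro j
      rw [wm_C, wm_C]
      exact wm_X _ _
    · intro j
      rw [wm_C]; exact wm_X _ _
    · intro j
      exact wm_X _ _
  obtain ⟨h, hh⟩ : ∃ h : ((T × (Fin n → ℝ)) × (Fin (m + 2) → ℝ)) ×
      (Fin (l + 1) → ℝ) → ℝ,
      ∀ s, h s = -(((L.ext n).ext (m + 2)).ext (l + 1)).φ s F :=
    ⟨_, fun s => rfl⟩
  have hc : Continuous h := by
    have : h = fun s => -(((L.ext n).ext (m + 2)).ext (l + 1)).φ s F := funext hh
    rw [this]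
    exact ((((L.ext n).ext (m + 2)).ext (l + 1)).cont F).neg
  have hP0 : Polynomial.X + Polynomial.C F ≠ 0 := (Polynomial.monic_X_add_C F).ne_zero
  have hB : (wm (wm (wm nr n) (m + 2)) (l + 1)).poly.ν
      (Polynomial.X + Polynomial.C F) ≤ 2 ^ 2 ^ (κ + κ' + S.length + 6) := by
    refine (ν_X_add_C _ F).trans ?_
    have h1 := bound_B S.length κ κ'
    omega
  have p1 := wm_pos nr hpos (N := n)
  have p2 := wm_pos (wm nr n) p1 (N := m + 2)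
  obtain ⟨Q, hQ0, hQν, hQ⟩ := ((L.ext n).ext (m + 2)).step
    (wm (wm nr n) (m + 2)) p2 (Polynomial.X + Polynomial.C F) hP0 _ hB
    Nat.one_le_two_pow h hc (fun s => by
      rw [Polynomial.eval₂_add, Polynomial.eval₂_X, Polynomial.eval₂_C, hh]; ring)
  have hQν' := (flip_ν (wm (wm nr n) (m + 2)) Q).trans
    (hQν.trans (bndL_le (l + 1) (κ + κ' + S.length + 6) _ (le_refl _)))
  obtain ⟨h1, hh1⟩ : ∃ h1 : (T × (Fin n → ℝ)) × (Fin (m + 2) → ℝ) → ℝ,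
      ∀ s, h1 s = -bmax h s := ⟨_, fun s => rfl⟩
  have hc1 : Continuous h1 := by
    have : h1 = fun s => -bmax h s := funext hh1
    rw [this]
    exact (continuous_bmax hc).neg
  obtain ⟨Q1, hQ10, hQ1ν, hQ1⟩ := (L.ext n).step (wm nr n)
    p1 (flip Q) (flip_ne_zero Q hQ0) _ hQν'
    Nat.one_le_two_pow h1 hc1 (fun s => by
      rw [flip_eval, hh1, neg_neg]
      exact hQ s)
  have hQ1ν' := (flip_ν (wm nr n) Q1).trans
    (hQ1ν.trans (bndL_le (m + 2) _ _ (le_refl _)))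
  obtain ⟨h2, hh2⟩ : ∃ h2 : T × (Fin n → ℝ) → ℝ,
      ∀ s, h2 s = -bmax h1 s := ⟨_, fun s => rfl⟩
  have hc2 : Continuous h2 := by
    have : h2 = fun s => -bmax h1 s := funext hh2
    rw [this]
    exact (continuous_bmax hc1).neg
  obtain ⟨Q2, hQ20, hQ2ν, hQ2⟩ := L.step nr
    hpos (flip Q1) (flip_ne_zero Q1 hQ10) _ hQ1ν'
    Nat.one_le_two_pow h2 hc2 (fun s => by
      rw [flip_eval, hh2, neg_neg]
      exact hQ1 s)
  have hQ2ν' : nr.poly.ν (flip Q2) ≤ 2 ^ 2 ^ kap'' n m l S.length := by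
    have h1 := (flip_ν nr Q2).trans
      (hQ2ν.trans (bndL_le n _ _ (le_refl _)))
    unfold kap''
    rw [← hκ, ← hκ']
    exact h1
  refine ⟨flip Q2, flip_ne_zero Q2 hQ20, hQ2ν', fun s => -bmax h2 s, (continuous_bmax hc2).neg,
    fun s => ?_, ?_⟩
  · rw [flip_eval, neg_neg]
    exact hQ2 s
  · intro t
    constructor
    · rintro ⟨x, hx, hY⟩
      have e1 := le_bmax hc2 t hx
      rw [hh2] at e1
      obtain ⟨Y, hYc, hY2⟩ := exists_bmax hc1 (t, x)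
      rw [← hY2, hh1] at e1
      obtain ⟨U, hU, hPhi⟩ := hY Y hYc
      have e2 := le_bmax hc ((t, x), Y) hU
      rw [hh, hF] at e2
      rw [← hκ, ← hκ'] at hPhi
      simp only [Left.neg_nonpos_iff]
      linarith
    · intro hbσ
      simp only [Left.neg_nonpos_iff] at hbσ
      obtain ⟨x, hx, hx2⟩ := exists_bmax hc2 t
      rw [← hx2, hh2] at hbσ
      refine ⟨x, hx, fun Y hY => ?_⟩
      have e1 := le_bmax hc1 (t, x) hY
      rw [hh1] at e1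
      obtain ⟨U, hU, hU2⟩ := exists_bmax hc ((t, x), Y)
      refine ⟨U, hU, ?_⟩
      rw [← hU2, hh, hF] at e1
      rw [← hκ, ← hκ']
      linarith

theorem good_eff (hG : ∃ σ : ℝ, 0 < σ ∧ σ ≤ 1 ∧ Good loc S σ) :
    Good loc S ((1 / 2) ^ (2 ^ kap'' n m l S.length)) := by
  obtain ⟨Q, hQ0, hQν, b, hbc, hQ, hgood⟩ := step3 loc S (Lvl.int.ext 1) (wm RNorm.int 1)
    (wm_pos RNorm.int int_pos) (MvPolynomial.X 0) (wm_X _ _)
  obtain ⟨σ₁, hσ0, hσ1, hσ⟩ := hG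
  have e : ∀ σ : ℝ, (Lvl.int.ext 1).φ ((), fun _ => σ) (MvPolynomial.X 0) = σ := fun σ => by
    rw [ext_φ_X]
  obtain ⟨σ, h10, h11, h12, h13⟩ := gap_int Q hQ0 _ hQν (fun σ => b ((), fun _ => σ))
    (hbc.comp (by fun_prop)) (fun s => hQ _) σ₁ hσ0 hσ1 (by
      rw [← hgood, e]
      exact hσ)
  rw [← hgood, e] at h13
  refine good_mono loc S (by positivity) ?_ h13
  push_cast at h12
  rw [one_div, inv_pow, inv_le_iff_one_le_mul₀ (by positivity), mul_comm]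
  exact h12

/-- **The compact normal form.** -/
theorem good_of_sent_eff (h : Sent loc S) : Good loc S ((1 / 2) ^ (2 ^ kap'' n m l S.length)) :=
  good_eff loc S (good_of_sent loc S h)

end Pool.Agent.R537.RN
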