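import Pool.Agent.R537.RN.GH

/-!
# The geometric part of the reduction, backward direction
-/

set_option autoImplicit false

namespace Pool.Agent.R537.RN

open Filter Topology Metric

theorem eq_zero_of_bdd {F : Type} [NormedAddCommGroup F] [InnerProductSpace ℝ F] {a b : F}
    {M : ℝ} (h : ∀ t : ℝ, ‖a + t • b‖ ≤ M) : b = 0 := by
  by_contra hb
  have hb0 : 0 < ‖b‖ := norm_pos_iff.2 hb
  have h1 := h ((M + ‖a‖ + 1) / ‖b‖)
  have h2 : ‖((M + ‖a‖ + 1) / ‖b‖) • b‖ = |M + ‖a‖ + 1| := by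
    rw [norm_smul, Real.norm_eq_abs, abs_div, abs_of_pos hb0]
    field_simp
  have h3 := norm_sub_norm_le (((M + ‖a‖ + 1) / ‖b‖) • b) (-a)
  rw [sub_neg_eq_add, norm_neg, add_comm _ a, h2] at h3
  have h4 := le_abs_self (M + ‖a‖ + 1)
  linarith

theorem small_of_sphere {F : Type} [NormedAddCommGroup F] [InnerProductSpace ℝ F] {δ : F}
    {R ε : ℝ} (hR : 0 < R) (hε : 0 < ε) (h : ∀ ω : F, ‖ω‖ = R → ‖δ - ω‖ < R + ε) :
    ‖δ‖ ≤ ε := by
  by_cases hδ : δ = 0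
  · rw [hδ, norm_zero]; exact hε.le
  · have hδ0 : 0 < ‖δ‖ := norm_pos_iff.2 hδ
    have h1 := h (-(R / ‖δ‖) • δ) (by
      rw [norm_smul, norm_neg, Real.norm_eq_abs, abs_of_pos (by positivity)]
      field_simp)
    have h2 : δ - -(R / ‖δ‖) • δ = (1 + R / ‖δ‖) • δ := by
      rw [neg_smul, sub_neg_eq_add, add_smul, one_smul]
    rw [h2, norm_smul, Real.norm_eq_abs, abs_of_pos (by positivity)] at h1
    have h3 : (1 + R / ‖δ‖) * ‖δ‖ = ‖δ‖ + R := by field_simp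
    linarith

variable {E EX EY EW : Type} [NormedAddCommGroup E] [InnerProductSpace ℝ E]
    [NormedAddCommGroup EX] [InnerProductSpace ℝ EX] [NormedAddCommGroup EY]
    [InnerProductSpace ℝ EY] [NormedAddCommGroup EW] [InnerProductSpace ℝ EW]
    (s : Split E EX EY EW)

/-- The inclusion of the first two blocks. -/
def Split.ptL : EX × EY →ₗ[ℝ] E where
  toFun := fun q => s.pt q.1 q.2 0
  map_add' := fun p q => by
    apply s.ext
    · simp [s.X_mk]
    · simp [s.Y_mk]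
    · simp [s.W_mk]
  map_smul' := fun a q => by
    apply s.ext
    · simp [s.X_mk]
    · simp [s.Y_mk]
    · simp [s.W_mk]

theorem Split.ptL_apply (q : EX × EY) : s.ptL q = s.pt q.1 q.2 0 := rfl

theorem gh_eps [FiniteDimensional ℝ EX] [FiniteDimensional ℝ EY] {e : EW} (he : ‖e‖ = 1)
    {R : ℝ} (hR : 4 ≤ R) {C : Set (EX × EY × EW)} {ρ : ℝ} (hCx : ∀ c ∈ C, ‖c.1‖ ≤ ρ)
    (hC1 : ∀ c ∈ C, ‖c.2.2‖ = R) {ε : ℝ} (hε0 : 0 < ε) (hε1 : ε ≤ 1 / 2) (T : E ≃ᵃⁱ[ℝ] E)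
    (hT : hausdorffEDist (T '' SA s e R) (SB s e R C) < ENNReal.ofReal (R + ε)) :
    ∃ x, ∀ y, ∃ c ∈ C, ‖x - c.1‖ ^ 2 + ‖y - c.2.1‖ ^ 2 ≤ 4 * R * ε := by
  have hR0 : 0 < R := by linarith
  have hA : ∀ p ∈ SA s e R, ∃ b ∈ SB s e R C, ‖T p - b‖ < R + ε := by
    intro p hp
    obtain ⟨b, hb, hb2⟩ := exists_edist_lt_of_hausdorffEDist_lt (Set.mem_image_of_mem T hp) hT
    refine ⟨b, hb, ?_⟩
    rw [edist_dist, ENNReal.ofReal_lt_ofReal_iff (by linarith), dist_eq_norm] at hb2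
    exact hb2
  have hB : ∀ b ∈ SB s e R C, ∃ p ∈ SA s e R, ‖T p - b‖ < R + ε := by
    intro b hb
    rw [hausdorffEDist_comm] at hT
    obtain ⟨_, ⟨p, hp, rfl⟩, hb2⟩ := exists_edist_lt_of_hausdorffEDist_lt hb hT
    refine ⟨p, hp, ?_⟩
    rw [edist_dist, ENNReal.ofReal_lt_ofReal_iff (by linarith), dist_comm, dist_eq_norm] at hb2
    exact hb2
  have hOadd : ∀ p u, T (p + u) = T p + T.linearIsometryEquiv u := by
    intro p u
    have := T.map_vadd p u
    simp only [vadd_eq_add] at this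
    rw [add_comm p u, this, add_comm]
  generalize hO : T.linearIsometryEquiv = O at *
  have hsm : ∀ a b : ℝ, ‖a • e - b • e‖ = |a - b| := by
    intro a b
    rw [← sub_smul, norm_smul, he, mul_one, Real.norm_eq_abs]
  have hsm1 : ∀ a : ℝ, ‖a • e‖ = |a| := by
    intro a
    rw [norm_smul, he, mul_one, Real.norm_eq_abs]
  -- the clusters of the second set
  have hcl : ∀ b ∈ SB s e R C, ∃ k : ℝ, (k = 0 ∨ k = 100 ∨ k = -300) ∧
      ‖s.W b - (k * R) • e‖ ≤ 2 * R := by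
    intro b hb
    rcases hb with hb | hb | hb | hb
    · refine ⟨0, Or.inl rfl, ?_⟩
      have := hC1 _ hb
      simp only at this
      rw [zero_mul, zero_smul, sub_zero, this]
      linarith
    · refine ⟨0, Or.inl rfl, ?_⟩
      rw [hb, hsm, zero_mul, sub_zero, abs_of_pos (by linarith)]
    · exact ⟨100, Or.inr (Or.inl rfl), by linarith⟩
    · refine ⟨-300, Or.inr (Or.inr rfl), ?_⟩
      have e1 : (-300 : ℝ) * R = -(300 * R) := by ring
      rw [e1]; linarith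
  have hWbd : ∀ b ∈ SB s e R C, ‖s.W b‖ ≤ 302 * R := by
    intro b hb
    obtain ⟨k, hk, hk2⟩ := hcl b hb
    have h1 := norm_le_norm_add_norm_sub' (s.W b) ((k * R) • e)
    rw [hsm1] at h1
    have h2 : |k * R| ≤ 300 * R := by
      rw [abs_mul, abs_of_pos hR0]
      apply mul_le_mul_of_nonneg_right _ hR0.le
      rcases hk with rfl | rfl | rfl <;> norm_num
    linarith
  -- step 1
  have step1 : ∀ u, s.W u = 0 → s.W (O u) = 0 := by
    intro u hu
    refine eq_zero_of_bdd (a := s.W (T (s.pt 0 0 ((100 * R) • e)))) (M := 304 * R) fun t => ?_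
    have hp : s.pt 0 0 ((100 * R) • e) + t • u ∈ SA s e R := by
      refine Or.inr (Or.inr (Or.inl ?_))
      rw [map_add, map_smul, hu, smul_zero, add_zero, s.W_mk]
    obtain ⟨b, hb, hb2⟩ := hA _ hp
    rw [hOadd, map_smul] at hb2
    have h1 := s.norm_W (T (s.pt 0 0 ((100 * R) • e)) + t • O u - b)
    rw [map_sub, map_add, map_smul] at h1
    have h2 := hWbd b hb
    have h3 := norm_le_norm_add_norm_sub' (s.W (T (s.pt 0 0 ((100 * R) • e))) + t • s.W (O u))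
      (s.W b)
    linarith
  -- step 2
  have hsurj : ∀ x₀ y₀, ∃ x' y', s.X (O (s.pt x' y' 0)) = x₀ ∧ s.Y (O (s.pt x' y' 0)) = y₀ := by
    let Λ : EX × EY →ₗ[ℝ] EX × EY :=
      (s.X.prod s.Y).comp (O.toLinearEquiv.toLinearMap.comp s.ptL)
    have hΛ : ∀ q, Λ q = (s.X (O (s.pt q.1 q.2 0)), s.Y (O (s.pt q.1 q.2 0))) := fun q => rfl
    have hinj : Function.Injective Λ := by
      rw [injective_iff_map_eq_zero]
      intro q hq
      rw [hΛ, Prod.mk_eq_zero] at hq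
      have h1 : O (s.pt q.1 q.2 0) = 0 := by
        apply s.ext
        · rw [hq.1, map_zero]
        · rw [hq.2, map_zero]
        · rw [step1 _ (s.W_mk _ _ _), map_zero]
      have h2 : s.pt q.1 q.2 0 = 0 := by
        have := O.map_eq_zero_iff.1 h1
        exact this
      have h3 := s.X_mk q.1 q.2 0
      have h4 := s.Y_mk q.1 q.2 0
      rw [h2, map_zero] at h3 h4
      exact Prod.ext h3.symm h4.symm
    have hs := LinearMap.injective_iff_surjective.1 hinj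
    intro x₀ y₀
    obtain ⟨q, hq⟩ := hs (x₀, y₀)
    rw [hΛ] at hq
    exact ⟨q.1, q.2, (Prod.ext_iff.1 hq).1, (Prod.ext_iff.1 hq).2⟩
  have hE0 : ‖s.pt 0 0 e‖ ^ 2 = 1 := by
    rw [s.norm_sq, s.X_mk, s.Y_mk, s.W_mk, he]; norm_num
  have he' : ‖s.W (O (s.pt 0 0 e))‖ = 1 := by
    obtain ⟨x', y', hx', hy'⟩ := hsurj (s.X (O (s.pt 0 0 e))) (s.Y (O (s.pt 0 0 e)))
    have h1 : ‖O (s.pt 0 0 e)‖ ^ 2 = 1 := by rw [O.norm_map, hE0]
    have h2 : ‖O (s.pt x' y' 0)‖ ^ 2 = ‖x'‖ ^ 2 + ‖y'‖ ^ 2 := by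
      rw [O.norm_map, s.norm_sq, s.X_mk, s.Y_mk, s.W_mk]; simp
    have h3 : ‖O (s.pt 0 0 e - s.pt x' y' 0)‖ ^ 2 = ‖x'‖ ^ 2 + ‖y'‖ ^ 2 + 1 := by
      rw [O.norm_map, s.norm_sq, map_sub, map_sub, map_sub, s.X_mk, s.Y_mk, s.W_mk, s.X_mk,
        s.Y_mk, s.W_mk]
      simp [he]
    rw [s.norm_sq] at h1 h2 h3
    rw [map_sub, map_sub, map_sub, map_sub, hx', hy', step1 _ (s.W_mk _ _ _)] at h3
    rw [hx', hy', step1 _ (s.W_mk _ _ _)] at h2
    simp only [sub_self, norm_zero, sub_zero] at h2 h3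
    have h4 : ‖s.W (O (s.pt 0 0 e))‖ ^ 2 = 1 := by
      have := sq_nonneg ‖s.X (O (s.pt 0 0 e))‖
      have := sq_nonneg ‖s.Y (O (s.pt 0 0 e))‖
      nlinarith
    nlinarith [norm_nonneg (s.W (O (s.pt 0 0 e)))]
  generalize hedef : s.W (O (s.pt 0 0 e)) = e' at *
  have hWT : ∀ (p : E) (η : ℝ), s.W p = η • e → s.W (T p) = s.W (T 0) + η • e' := by
    intro p η hp
    have h1 : p = 0 + ((p - η • s.pt 0 0 e) + η • s.pt 0 0 e) := by abel
    have h2 : s.W (p - η • s.pt 0 0 e) = 0 := by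
      rw [map_sub, map_smul, hp, s.W_mk, sub_self]
    conv_lhs => rw [h1]
    rw [hOadd, map_add, map_add O, map_add, step1 _ h2, zero_add, map_smul, map_smul, hedef]
  generalize hcdef : s.W (T 0) = c at *
  have hsm' : ∀ a b : ℝ, ‖(c + a • e') - (c + b • e')‖ = |a - b| := by
    intro a b
    rw [add_sub_add_left_eq_sub, ← sub_smul, norm_smul, he', mul_one, Real.norm_eq_abs]
  -- step 3
  have hk : ∀ η : ℝ, (η = 0 ∨ η = 100 ∨ η = -300) → ∃ k : ℝ, (k = 0 ∨ k = 100 ∨ k = -300) ∧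
      ‖(c + (η * R) • e') - (k * R) • e‖ < 3 * R + 1 / 2 := by
    intro η hη
    have hp : s.pt 0 0 ((η * R) • e) ∈ SA s e R := by
      rcases hη with rfl | rfl | rfl
      · refine Or.inl ⟨s.X_mk _ _ _, ?_⟩
        rw [s.W_mk, zero_mul, zero_smul]
      · exact Or.inr (Or.inr (Or.inl (s.W_mk _ _ _)))
      · refine Or.inr (Or.inr (Or.inr ?_))
        rw [s.W_mk]
        congr 1
        ring
    obtain ⟨b, hb, hb2⟩ := hA _ hp
    obtain ⟨k, hk, hk2⟩ := hcl b hb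
    refine ⟨k, hk, ?_⟩
    have h1 := s.norm_W (T (s.pt 0 0 ((η * R) • e)) - b)
    rw [map_sub, hWT _ (η * R) (s.W_mk _ _ _)] at h1
    have h2 := norm_add_le (c + (η * R) • e' - s.W b) (s.W b - (k * R) • e)
    rw [sub_add_sub_cancel] at h2
    linarith
  have hpair : ∀ η₁ η₂ k₁ k₂ : ℝ, ‖(c + (η₁ * R) • e') - (k₁ * R) • e‖ < 3 * R + 1 / 2 →
      ‖(c + (η₂ * R) • e') - (k₂ * R) • e‖ < 3 * R + 1 / 2 →
      |η₁ - η₂| < |k₁ - k₂| + 7 ∧ |k₁ - k₂| < |η₁ - η₂| + 7 := by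
    intro η₁ η₂ k₁ k₂ h1 h2
    have h3 := hsm' (η₁ * R) (η₂ * R)
    have h4 := hsm (k₁ * R) (k₂ * R)
    rw [← sub_mul, abs_mul, abs_of_pos hR0] at h3 h4
    have h5 := norm_sub_le ((c + (η₁ * R) • e') - (k₁ * R) • e)
      ((c + (η₂ * R) • e') - (k₂ * R) • e)
    have h6 : (c + (η₁ * R) • e') - (k₁ * R) • e - ((c + (η₂ * R) • e') - (k₂ * R) • e) =
        ((c + (η₁ * R) • e') - (c + (η₂ * R) • e')) - ((k₁ * R) • e - (k₂ * R) • e) := by abel
    rw [h6] at h5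
    have h7 := norm_sub_norm_le ((c + (η₁ * R) • e') - (c + (η₂ * R) • e'))
      ((k₁ * R) • e - (k₂ * R) • e)
    have h8 := norm_sub_norm_le ((k₁ * R) • e - (k₂ * R) • e)
      ((c + (η₁ * R) • e') - (c + (η₂ * R) • e'))
    rw [norm_sub_rev ((k₁ * R) • e - (k₂ * R) • e)] at h8
    rw [h3, h4] at h7 h8
    constructor
    · have : |η₁ - η₂| * R < (|k₁ - k₂| + 7) * R := by nlinarith
      exact lt_of_mul_lt_mul_right this hR0.le
    · have : |k₁ - k₂| * R < (|η₁ - η₂| + 7) * R := by nlinarith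
      exact lt_of_mul_lt_mul_right this hR0.le
  obtain ⟨k0, hk0, hk0'⟩ := hk 0 (Or.inl rfl)
  obtain ⟨k1, hk1, hk1'⟩ := hk 100 (Or.inr (Or.inl rfl))
  obtain ⟨k2, hk2, hk2'⟩ := hk (-300) (Or.inr (Or.inr rfl))
  obtain ⟨a1, a2⟩ := hpair _ _ _ _ hk0' hk1'
  obtain ⟨a3, a4⟩ := hpair _ _ _ _ hk0' hk2'
  have hkk : k0 = 0 ∧ k1 = 100 ∧ k2 = -300 := by
    rcases hk0 with rfl | rfl | rfl <;> rcases hk1 with rfl | rfl | rfl <;>
      rcases hk2 with rfl | rfl | rfl <;>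
      first
        | exact ⟨rfl, rfl, rfl⟩
        | (exfalso; revert a1 a2 a3 a4; norm_num)
  obtain ⟨rfl, rfl, rfl⟩ := hkk
  -- step 4
  have step4 : ∀ η : ℝ, (η = 100 ∨ η = -300) →
      ‖(c + (η * R) • e') - (η * R) • e‖ < 3 * R + 1 / 2 →
      ‖(c + (η * R) • e') - (η * R) • e‖ ≤ ε := by
    intro η hη hlt
    apply small_of_sphere hR0 hε0
    intro ω hω
    have hb : s.pt 0 0 ((η * R) • e + ω) ∈ SB s e R C := by
      rcases hη with rfl | rfl
      · refine Or.inr (Or.inr (Or.inl ?_))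
        rw [s.W_mk, add_sub_cancel_left, hω]
      · refine Or.inr (Or.inr (Or.inr ?_))
        have : (-300 : ℝ) * R = -(300 * R) := by ring
        rw [s.W_mk, this, add_sub_cancel_left, hω]
    obtain ⟨p, hp, hp2⟩ := hB _ hb
    have hpη : ∃ η' : ℝ, (η' = 0 ∨ η' = 2 * R - 2 ∨ η' = 100 * R ∨ η' = -(300 * R)) ∧
        s.W p = η' • e := by
      rcases hp with ⟨-, hp⟩ | hp | hp | hp
      · exact ⟨0, Or.inl rfl, by rw [hp, zero_smul]⟩
      · exact ⟨_, Or.inr (Or.inl rfl), hp⟩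
      · exact ⟨_, Or.inr (Or.inr (Or.inl rfl)), hp⟩
      · exact ⟨_, Or.inr (Or.inr (Or.inr rfl)), hp⟩
    obtain ⟨η', hη', hWp⟩ := hpη
    have h1 := s.norm_W (T p - s.pt 0 0 ((η * R) • e + ω))
    rw [map_sub, hWT _ _ hWp, s.W_mk] at h1
    have h2 : ‖c + η' • e' - ((η * R) • e + ω)‖ < R + ε := lt_of_le_of_lt h1 hp2
    have h3 : |η' - η * R| < 6 * R := by
      rw [← hsm']
      have h4 : (c + η' • e') - (c + (η * R) • e') =
          (c + η' • e' - ((η * R) • e + ω)) + ω - ((c + (η * R) • e') - (η * R) • e) := by abel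
      rw [h4]
      have h5 := norm_sub_le ((c + η' • e' - ((η * R) • e + ω)) + ω)
        ((c + (η * R) • e') - (η * R) • e)
      have h6 := norm_add_le (c + η' • e' - ((η * R) • e + ω)) ω
      linarith
    have h4 : η' = η * R := by
      rw [abs_lt] at h3
      rcases hη with rfl | rfl <;> rcases hη' with rfl | rfl | rfl | rfl
      · exfalso; linarith [h3.1, h3.2]
      · exfalso; linarith [h3.1, h3.2]
      · rfl
      · exfalso; linarith [h3.1, h3.2]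
      · exfalso; linarith [h3.1, h3.2]
      · exfalso; linarith [h3.1, h3.2]
      · exfalso; linarith [h3.1, h3.2]
      · ring
    rw [h4, ← sub_sub] at h2
    exact h2
  have hδ1 := step4 100 (Or.inl rfl) hk1'
  have hδ2 := step4 (-300) (Or.inr rfl) hk2'
  have hc : ‖c‖ ≤ ε := by
    have h1 : c = (3 / 4 : ℝ) • ((c + ((100 : ℝ) * R) • e') - ((100 : ℝ) * R) • e) +
        (1 / 4 : ℝ) • ((c + ((-300 : ℝ) * R) • e') - ((-300 : ℝ) * R) • e) := by
      module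
    have h2 := norm_add_le ((3 / 4 : ℝ) • ((c + ((100 : ℝ) * R) • e') - ((100 : ℝ) * R) • e))
      ((1 / 4 : ℝ) • ((c + ((-300 : ℝ) * R) • e') - ((-300 : ℝ) * R) • e))
    rw [← h1, norm_smul, norm_smul] at h2
    norm_num at h2 hδ1 hδ2
    linarith
  -- points over the origin are close to `C`
  have hnear : ∀ p, s.X p = 0 → s.W p = 0 → ∃ b, (s.X b, s.Y b, s.W b) ∈ C ∧
      ‖T p - b‖ < R + ε := by
    intro p hp1 hp2
    obtain ⟨b, hb, hb2⟩ := hA p (Or.inl ⟨hp1, hp2⟩)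
    refine ⟨b, ?_, hb2⟩
    have h1 := s.norm_W (T p - b)
    rw [map_sub, hWT p 0 (by rw [hp2, zero_smul]), zero_smul, add_zero] at h1
    have h2 : ‖s.W b‖ < R + 1 := by
      have := norm_le_norm_add_norm_sub' (s.W b) c
      rw [norm_sub_rev] at this
      linarith
    rcases hb with hb | hb | hb | hb
    · exact hb
    · exfalso
      rw [hb, hsm1, abs_of_pos (by linarith)] at h2
      linarith
    · exfalso
      have h3 := norm_le_norm_add_norm_sub' ((100 * R) • e) (s.W b)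
      rw [norm_sub_rev, hb, hsm1, abs_of_pos (by linarith)] at h3
      linarith
    · exfalso
      have h3 := norm_le_norm_add_norm_sub' ((-(300 * R)) • e) (s.W b)
      rw [norm_sub_rev, hb, hsm1, abs_neg, abs_of_pos (by linarith)] at h3
      linarith
  -- step 5
  have step5 : ∀ y, s.X (O (s.pt 0 y 0)) = 0 := by
    intro y
    refine eq_zero_of_bdd (a := s.X (T 0)) (M := ρ + R + 1) fun t => ?_
    obtain ⟨b, hb, hb2⟩ := hnear (0 + t • s.pt 0 y 0)
      (by rw [zero_add, map_smul, s.X_mk, smul_zero])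
      (by rw [zero_add, map_smul, s.W_mk, smul_zero])
    rw [hOadd, map_smul] at hb2
    have h1 := s.norm_X (T 0 + t • O (s.pt 0 y 0) - b)
    rw [map_sub, map_add, map_smul] at h1
    have h2 := hCx _ hb
    simp only at h2
    have h3 := norm_le_norm_add_norm_sub' (s.X (T 0) + t • s.X (O (s.pt 0 y 0))) (s.X b)
    linarith
  have hsurjY : ∀ y₀, ∃ y', s.Y (O (s.pt 0 y' 0)) = y₀ := by
    let Λ : EY →ₗ[ℝ] EY :=
      s.Y.comp (O.toLinearEquiv.toLinearMap.comp (s.ptL.comp (LinearMap.inr ℝ EX EY)))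
    have hΛ : ∀ y, Λ y = s.Y (O (s.pt 0 y 0)) := fun y => rfl
    have hinj : Function.Injective Λ := by
      rw [injective_iff_map_eq_zero]
      intro y hy
      rw [hΛ] at hy
      have h1 : O (s.pt 0 y 0) = 0 := by
        apply s.ext
        · rw [step5, map_zero]
        · rw [hy, map_zero]
        · rw [step1 _ (s.W_mk _ _ _), map_zero]
      have h2 : s.pt 0 y 0 = 0 := by
        have := O.map_eq_zero_iff.1 h1
        exact this
      have h4 := s.Y_mk 0 y 0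
      rw [h2, map_zero] at h4
      exact h4.symm
    have hs := LinearMap.injective_iff_surjective.1 hinj
    intro y₀
    obtain ⟨q, hq⟩ := hs y₀
    exact ⟨q, hq⟩
  refine ⟨s.X (T 0), fun y => ?_⟩
  obtain ⟨y', hy'⟩ := hsurjY (y - s.Y (T 0))
  obtain ⟨b, hb, hb2⟩ := hnear (0 + s.pt 0 y' 0) (by rw [zero_add, s.X_mk])
    (by rw [zero_add, s.W_mk])
  refine ⟨_, hb, ?_⟩
  simp only
  rw [hOadd] at hb2
  have h1 := s.norm_sq (T 0 + O (s.pt 0 y' 0) - b)
  rw [map_sub, map_sub, map_sub, map_add, map_add, map_add, step5, hy', step1 _ (s.W_mk _ _ _),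
    hcdef, add_zero, add_sub_cancel, add_zero] at h1
  have h2 := hC1 _ hb
  simp only at h2
  have h3 : R - ε ≤ ‖c - s.W b‖ := by
    have := norm_le_norm_add_norm_sub' (s.W b) c
    rw [norm_sub_rev] at this
    linarith
  have h4 : ‖T 0 + O (s.pt 0 y' 0) - b‖ ^ 2 ≤ (R + ε) ^ 2 :=
    pow_le_pow_left₀ (norm_nonneg _) hb2.le 2
  have h5 : (R - ε) ^ 2 ≤ ‖c - s.W b‖ ^ 2 := pow_le_pow_left₀ (by linarith) h3 2
  nlinarith

/-- If the infimum over the isometries is at most `R`, then the sentence is true. -/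
theorem gh_bwd [FiniteDimensional ℝ EX] [FiniteDimensional ℝ EY] [FiniteDimensional ℝ EW]
    {e : EW} (he : ‖e‖ = 1)
    {R : ℝ} (hR : 4 ≤ R) {C : Set (EX × EY × EW)} (hCc : IsClosed C) {ρ : ℝ}
    (hCx : ∀ c ∈ C, ‖c.1‖ ≤ ρ) (hC1 : ∀ c ∈ C, ‖c.2.2‖ = R)
    (h : ∀ ε : ℝ, 0 < ε → ∃ T : E ≃ᵃⁱ[ℝ] E,
      hausdorffEDist (T '' SA s e R) (SB s e R C) < ENNReal.ofReal (R + ε)) :
    ∃ x, ∀ y, ∃ w, (x, y, w) ∈ C := by
  have hε : ∀ k : ℕ, (0 : ℝ) < 1 / (k + 2) := fun k => by positivity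
  have hε1 : ∀ k : ℕ, (1 : ℝ) / (k + 2) ≤ 1 / 2 := fun k => by
    apply one_div_le_one_div_of_le (by norm_num)
    have : (0 : ℝ) ≤ k := Nat.cast_nonneg k
    linarith
  have h1 : ∀ k : ℕ, ∃ x : EX, ∀ y : EY, ∃ c ∈ C, ‖x - c.1‖ ^ 2 + ‖y - c.2.1‖ ^ 2 ≤
      4 * R * (1 / (k + 2)) := by
    intro k
    obtain ⟨T, hT⟩ := h _ (hε k)
    exact gh_eps s he hR hCx hC1 (hε k) (hε1 k) T hT
  choose x hx using h1
  have hbd : ∀ k, x k ∈ Metric.closedBall (0 : EX) (ρ + R) := by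
    intro k
    obtain ⟨c, hc, hc2⟩ := hx k 0
    rw [mem_closedBall_zero_iff]
    have h2 := hCx c hc
    have h3 : ‖x k - c.1‖ ^ 2 ≤ R ^ 2 := by
      have h4 : 4 * R * (1 / ((k : ℝ) + 2)) ≤ 4 * R * (1 / 2) :=
        mul_le_mul_of_nonneg_left (hε1 k) (by linarith)
      nlinarith [sq_nonneg ‖(0 : EY) - c.2.1‖]
    have h5 : ‖x k - c.1‖ ≤ R := abs_le_of_sq_le_sq' h3 (by linarith) |>.2
    have h6 := norm_le_norm_add_norm_sub' (x k) c.1
    linarith
  obtain ⟨x', -, φ, hφ, hφx⟩ := (isCompact_closedBall (0 : EX) (ρ + R)).tendsto_subseq hbd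
  refine ⟨x', fun y => ?_⟩
  choose c hc hc2 using fun k => hx (φ k) y
  have hlim0 : Tendsto (fun k : ℕ => 4 * R * (1 / ((φ k : ℝ) + 2))) atTop (𝓝 0) := by
    have h2 : Tendsto (fun k : ℕ => (1 : ℝ) / ((k : ℝ) + 2)) atTop (𝓝 0) := by
      have h3 : Tendsto (fun k : ℕ => (k : ℝ) + 2) atTop atTop :=
        tendsto_atTop_add_const_right _ _ tendsto_natCast_atTop_atTop
      simp_rw [one_div]
      exact tendsto_inv_atTop_zero.comp h3
    have h4 := (h2.comp hφ.tendsto_atTop).const_mul (4 * R)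
    rw [mul_zero] at h4
    exact h4
  have hsq : ∀ {F : Type} [NormedAddCommGroup F] (a : ℕ → F),
      (∀ k, ‖a k‖ ^ 2 ≤ 4 * R * (1 / ((φ k : ℝ) + 2))) → Tendsto a atTop (𝓝 0) := by
    intro F _ a ha
    rw [tendsto_zero_iff_norm_tendsto_zero]
    have h2 : Tendsto (fun k => ‖a k‖ ^ 2) atTop (𝓝 0) :=
      squeeze_zero (fun _ => sq_nonneg _) ha hlim0
    have h3 := (Real.continuous_sqrt.tendsto 0).comp h2
    rw [Real.sqrt_zero] at h3
    refine h3.congr fun k => ?_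
    simp only [Function.comp]
    exact Real.sqrt_sq (norm_nonneg _)
  have ha : Tendsto (fun k => x (φ k) - (c k).1) atTop (𝓝 0) :=
    hsq _ fun k => by nlinarith [hc2 k, sq_nonneg ‖y - (c k).2.1‖]
  have hb : Tendsto (fun k => y - (c k).2.1) atTop (𝓝 0) :=
    hsq _ fun k => by nlinarith [hc2 k, sq_nonneg ‖x (φ k) - (c k).1‖]
  have ha' : Tendsto (fun k => (c k).1) atTop (𝓝 x') := by
    have := hφx.sub ha
    simp only [sub_zero] at this
    refine this.congr fun k => ?_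
    simp
  have hb' : Tendsto (fun k => (c k).2.1) atTop (𝓝 y) := by
    have := (tendsto_const_nhds (x := y)).sub hb
    simp only [sub_zero] at this
    refine this.congr fun k => ?_
    simp
  have hw : ∀ k, (c k).2.2 ∈ Metric.closedBall (0 : EW) R := fun k => by
    rw [mem_closedBall_zero_iff]; exact (hC1 _ (hc k)).le
  obtain ⟨w, -, ψ, hψ, hψw⟩ := (isCompact_closedBall (0 : EW) R).tendsto_subseq hw
  refine ⟨w, ?_⟩
  refine hCc.mem_of_tendsto (f := fun k => c (ψ k)) (b := atTop) ?_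
    (Eventually.of_forall fun k => hc _)
  have h5 := (ha'.comp hψ.tendsto_atTop).prodMk_nhds
    ((hb'.comp hψ.tendsto_atTop).prodMk_nhds hψw)
  exact h5

end Pool.Agent.R537.RN
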