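import Pool.Agent.R537.RN.Max

/-!
# The maximum over a cube of a function satisfying a polynomial relation

If a continuous function `h` on the cube `[-1, 1]^N` satisfies a polynomial relation
`H (x, h x) = 0`, then its maximum is a root of a polynomial whose norm is bounded in terms of the
norm of `H`; the polynomial depends polynomially on the coefficients.
-/

set_option autoImplicit false

namespace Pool.Agent.R537.RN

open Finset Filter Topology Pool.Agent.H612

variable {K : Type} [CommRing K]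

/-- The weighted norm of a multivariate polynomial. -/
noncomputable def wν (nr : RNorm K) {N : ℕ} (p : MvPolynomial (Fin N) K) : ℕ :=
  ∑ d ∈ p.support, nr.ν (p.coeff d) * 2 ^ (∑ j, d j)

section wnorm

variable (nr : RNorm K) {N : ℕ}

theorem wν_eq_of_subset {p : MvPolynomial (Fin N) K} {s : Finset (Fin N →₀ ℕ)}
    (h : p.support ⊆ s) : wν nr p = ∑ i ∈ s, nr.ν (p.coeff i) * 2 ^ (∑ j, i j) := by
  unfold wν
  apply Finset.sum_subset h
  intro i _ hi
  rw [MvPolynomial.notMem_support_iff.mp hi, nr.zero, zero_mul]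

theorem wν_zero : wν nr (0 : MvPolynomial (Fin N) K) = 0 := by simp [wν]

theorem wν_monomial (n : Fin N →₀ ℕ) (a : K) :
    wν nr (MvPolynomial.monomial n a) = nr.ν a * 2 ^ (∑ j, n j) := by
  classical
  have h : (MvPolynomial.monomial n a).support ⊆ {n} := MvPolynomial.support_monomial_subset
  rw [wν_eq_of_subset nr h]
  simp

theorem wν_add (p q : MvPolynomial (Fin N) K) : wν nr (p + q) ≤ wν nr p + wν nr q := by
  classical
  have h1 : (p + q).support ⊆ p.support ∪ q.support := MvPolynomial.support_add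
  rw [wν_eq_of_subset nr h1, wν_eq_of_subset nr (Finset.subset_union_left (s₂ := q.support)),
    wν_eq_of_subset nr (Finset.subset_union_right (s₁ := p.support)), ← Finset.sum_add_distrib]
  apply Finset.sum_le_sum
  intro i _
  rw [MvPolynomial.coeff_add, ← add_mul]
  exact Nat.mul_le_mul_right _ (nr.add _ _)

theorem wν_sum {ι : Type*} (s : Finset ι) (f : ι → MvPolynomial (Fin N) K) :
    wν nr (∑ i ∈ s, f i) ≤ ∑ i ∈ s, wν nr (f i) := by
  classical
  induction s using Finset.induction_on with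
  | empty => simp [wν_zero]
  | insert a s ha ih =>
    rw [Finset.sum_insert ha, Finset.sum_insert ha]
    exact (wν_add nr _ _).trans (Nat.add_le_add_left ih _)

theorem wν_mul (p q : MvPolynomial (Fin N) K) : wν nr (p * q) ≤ wν nr p * wν nr q := by
  conv_lhs => rw [MvPolynomial.as_sum p, MvPolynomial.as_sum q]
  rw [Finset.sum_mul_sum]
  refine (wν_sum nr _ _).trans ?_
  have : wν nr p * wν nr q = ∑ i ∈ p.support, ∑ j ∈ q.support,
      (nr.ν (p.coeff i) * 2 ^ (∑ k, i k)) * (nr.ν (q.coeff j) * 2 ^ (∑ k, j k)) := by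
    rw [wν, wν, Finset.sum_mul_sum]
  rw [this]
  apply Finset.sum_le_sum
  intro i _
  refine (wν_sum nr _ _).trans ?_
  apply Finset.sum_le_sum
  intro j _
  rw [MvPolynomial.monomial_mul, wν_monomial]
  have h1 : ∑ k, (i + j) k = ∑ k, i k + ∑ k, j k := by
    simp [Finset.sum_add_distrib]
  rw [h1, pow_add]
  calc nr.ν (p.coeff i * q.coeff j) * (2 ^ (∑ k, i k) * 2 ^ (∑ k, j k))
      ≤ (nr.ν (p.coeff i) * nr.ν (q.coeff j)) * (2 ^ (∑ k, i k) * 2 ^ (∑ k, j k)) :=
        Nat.mul_le_mul_right _ (nr.mul _ _)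
    _ = _ := by ring

/-- The weighted norm. -/
noncomputable def wm (N : ℕ) : RNorm (MvPolynomial (Fin N) K) where
  ν := wν nr
  zero := wν_zero nr
  one := by
    have h : (1 : MvPolynomial (Fin N) K) = MvPolynomial.monomial 0 1 := rfl
    rw [h, wν_monomial]
    simpa using nr.one
  neg := fun p => by
    unfold wν
    rw [MvPolynomial.support_neg]
    apply Finset.sum_le_sum
    intro i _
    rw [MvPolynomial.coeff_neg]
    exact Nat.mul_le_mul_right _ (nr.neg _)
  add := wν_add nr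
  mul := wν_mul nr

theorem mν_le_wν (p : MvPolynomial (Fin N) K) : nr.mν p ≤ (wm nr N).ν p := by
  change nr.mν p ≤ wν nr p
  unfold wν RNorm.mν
  apply Finset.sum_le_sum
  intro d _
  exact Nat.le_mul_of_pos_right _ (by positivity)

theorem two_pow_le_wν (hpos : ∀ c : K, c ≠ 0 → 1 ≤ nr.ν c) {p : MvPolynomial (Fin N) K}
    {d : Fin N →₀ ℕ} (hd : d ∈ p.support) : 2 ^ (∑ j, d j) ≤ (wm nr N).ν p := by
  change _ ≤ wν nr p
  unfold wν
  refine le_trans ?_ (Finset.single_le_sum (f := fun d => nr.ν (p.coeff d) * 2 ^ (∑ j, d j))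
    (fun _ _ => Nat.zero_le _) hd)
  exact Nat.le_mul_of_pos_left _ (hpos _ (MvPolynomial.mem_support_iff.1 hd))

end wnorm

/-- Exchanging the variables. -/
noncomputable def θ (N : ℕ) :
    Polynomial (MvPolynomial (Fin N) K) →+* MvPolynomial (Fin N) (Polynomial K) :=
  Polynomial.eval₂RingHom (MvPolynomial.map Polynomial.C) (MvPolynomial.C Polynomial.X)

theorem eval_θ {N : ℕ} (φ : K →+* ℝ) (t : ℝ) (x : Fin N → ℝ)
    (H : Polynomial (MvPolynomial (Fin N) K)) :
    (θ N H).eval₂ (Polynomial.eval₂RingHom φ t) x = H.eval₂ (MvPolynomial.eval₂Hom φ x) t := by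
  have h : (MvPolynomial.eval₂Hom (Polynomial.eval₂RingHom φ t) x).comp (θ N) =
      Polynomial.eval₂RingHom (MvPolynomial.eval₂Hom φ x) t := by
    apply Polynomial.ringHom_ext
    · intro a
      simp only [θ, RingHom.comp_apply, Polynomial.coe_eval₂RingHom, Polynomial.eval₂_C,
        MvPolynomial.coe_eval₂Hom]
      exact eval_mapC φ t a x
    · simp [θ]
  have := congrArg (fun f => f H) h
  simpa using this

theorem θ_eq {N : ℕ} (H : Polynomial (MvPolynomial (Fin N) K)) :
    θ N H = ∑ j ∈ H.support,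
      MvPolynomial.map Polynomial.C (H.coeff j) * (MvPolynomial.C Polynomial.X) ^ j := by
  simp only [θ, Polynomial.coe_eval₂RingHom, Polynomial.eval₂_eq_sum, Polynomial.sum_def]

theorem one_le_pow_ν (nr : RNorm K) (j : ℕ) :
    nr.poly.ν ((Polynomial.X : Polynomial K) ^ j) ≤ 1 := by
  rw [Polynomial.X_pow_eq_monomial, RNorm.poly_ν, nr.pν_monomial]
  exact nr.one

theorem mν_θ (nr : RNorm K) {N : ℕ} (H : Polynomial (MvPolynomial (Fin N) K)) :
    nr.poly.mν (θ N H) ≤ (wm nr N).poly.ν H := by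
  rw [θ_eq]
  refine (nr.poly.mν_sum _ _).trans ?_
  rw [RNorm.poly_ν, RNorm.pν]
  apply Finset.sum_le_sum
  intro j _
  refine (nr.poly.mν_mul _ _).trans ?_
  rw [← map_pow, nr.poly.mν_C]
  calc nr.poly.mν (MvPolynomial.map Polynomial.C (H.coeff j)) * nr.poly.ν (Polynomial.X ^ j)
      ≤ nr.mν (H.coeff j) * 1 := Nat.mul_le_mul (mν_mapC nr _) (one_le_pow_ν nr j)
    _ = nr.mν (H.coeff j) := mul_one _
    _ ≤ _ := mν_le_wν nr _

theorem deg_θ (nr : RNorm K) (hpos : ∀ c : K, c ≠ 0 → 1 ≤ nr.ν c) {N : ℕ}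
    (H : Polynomial (MvPolynomial (Fin N) K)) {D : ℕ} (hD : (wm nr N).poly.ν H < 2 ^ (D + 1)) :
    DegLE (θ N H) D := by
  rw [θ_eq]
  apply DegLE.sum
  intro j _
  rw [← map_pow, mul_comm]
  apply DegLE.C_mul
  apply DegLE.map
  intro γ hγ
  have h1 := two_pow_le_wν nr hpos hγ
  have h2 : (wm nr N).ν (H.coeff j) ≤ (wm nr N).poly.ν H := (wm nr N).ν_coeff_le H j
  have h3 : 2 ^ (∑ k, γ k) < 2 ^ (D + 1) := lt_of_le_of_lt (h1.trans h2) hD
  have := (Nat.pow_lt_pow_iff_right (by norm_num : 1 < 2)).1 h3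
  omega

/-- The product which vanishes on the boundary of the cube. -/
noncomputable def bdP (N : ℕ) (R : Type) [CommRing R] : MvPolynomial (Fin N) R :=
  ∏ j, (1 - MvPolynomial.X j ^ 2)

theorem DegLE.prod {R : Type} [CommRing R] {N : ℕ} {ι : Type*} (s : Finset ι)
    (f : ι → MvPolynomial (Fin N) R) (m : ℕ) (h : ∀ i ∈ s, DegLE (f i) m) :
    DegLE (∏ i ∈ s, f i) (s.card * m) := by
  classical
  induction s using Finset.induction_on with
  | empty =>
    simp only [Finset.prod_empty, Finset.card_empty, zero_mul]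
    have : (1 : MvPolynomial (Fin N) R) = MvPolynomial.C 1 := by simp
    rw [this]
    exact degLE_C _ _
  | insert a s ha ih =>
    rw [Finset.prod_insert ha, Finset.card_insert_of_notMem ha]
    have := (h a (Finset.mem_insert_self _ _)).mul
      (ih (fun i hi => h i (Finset.mem_insert_of_mem hi)))
    refine this.mono ?_
    rw [add_mul, one_mul, add_comm]

theorem deg_bdP (N : ℕ) (R : Type) [CommRing R] : DegLE (bdP N R) (N * 2) := by
  unfold bdP
  have h : ∀ j ∈ (univ : Finset (Fin N)), DegLE (1 - MvPolynomial.X j ^ 2 :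
      MvPolynomial (Fin N) R) 2 := by
    intro j _
    have h1 : DegLE (1 : MvPolynomial (Fin N) R) 2 := by
      have : (1 : MvPolynomial (Fin N) R) = MvPolynomial.C 1 := by simp
      rw [this]
      exact degLE_C _ _
    have h2 : DegLE (MvPolynomial.X j ^ 2 : MvPolynomial (Fin N) R) 2 := by
      rw [pow_two]
      exact (degLE_X j).mul (degLE_X j)
    exact h1.sub h2
  have := DegLE.prod univ _ 2 h
  rwa [Finset.card_univ, Fintype.card_fin] at this

theorem mν_prod {R : Type} [CommRing R] (nr : RNorm R) {N : ℕ} {ι : Type*} (s : Finset ι)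
    (f : ι → MvPolynomial (Fin N) R) (m : ℕ) (h : ∀ i ∈ s, nr.mν (f i) ≤ m) :
    nr.mν (∏ i ∈ s, f i) ≤ m ^ s.card := by
  classical
  induction s using Finset.induction_on with
  | empty => simpa using nr.mν_one
  | insert a s ha ih =>
    rw [Finset.prod_insert ha, Finset.card_insert_of_notMem ha, pow_succ, mul_comm (m ^ _)]
    exact (nr.mν_mul _ _).trans (Nat.mul_le_mul (h a (Finset.mem_insert_self _ _))
      (ih (fun i hi => h i (Finset.mem_insert_of_mem hi))))

theorem mν_bdP {R : Type} [CommRing R] (nr : RNorm R) (N : ℕ) : nr.mν (bdP N R) ≤ 2 ^ N := by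
  unfold bdP
  have h : ∀ j ∈ (univ : Finset (Fin N)), nr.mν (1 - MvPolynomial.X j ^ 2 :
      MvPolynomial (Fin N) R) ≤ 2 := by
    intro j _
    refine (nr.mν_sub _ _).trans ?_
    have h2 : nr.mν (MvPolynomial.X j ^ 2 : MvPolynomial (Fin N) R) ≤ 1 := by
      rw [pow_two]
      refine (nr.mν_mul _ _).trans ?_
      exact Nat.mul_le_mul (nr.mν_X j) (nr.mν_X j)
    have := nr.mν_one (σ := Fin N)
    omega
  have := mν_prod nr univ _ 2 h
  simpa using this

/-- The polynomial to be maximised. -/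
noncomputable def ΓH {N : ℕ} (H : Polynomial (MvPolynomial (Fin N) K)) :
    MvPolynomial (Fin N) (Polynomial K) := (θ N H * bdP N (Polynomial K)) ^ 2

theorem eval_ΓH {N : ℕ} (φ : K →+* ℝ) (t : ℝ) (x : Fin N → ℝ)
    (H : Polynomial (MvPolynomial (Fin N) K)) :
    (ΓH H).eval₂ (Polynomial.eval₂RingHom φ t) x =
      (H.eval₂ (MvPolynomial.eval₂Hom φ x) t * ∏ j, (1 - x j ^ 2)) ^ 2 := by
  unfold ΓH bdP
  rw [MvPolynomial.eval₂_pow, MvPolynomial.eval₂_mul, eval_θ]
  congr 2
  have h := map_prod (MvPolynomial.eval₂Hom (Polynomial.eval₂RingHom φ t) x)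
    (fun j : Fin N => (1 - MvPolynomial.X j ^ 2 : MvPolynomial (Fin N) (Polynomial K))) univ
  simpa using h

/-- The exponent. -/
def qL (N D : ℕ) : ℕ := 2 * (D + N * 2) + 1

/-- The bound. -/
def bndL (N B : ℕ) : ℕ := bndR N (qL N (Nat.log 2 B)) ((B * 2 ^ N) ^ 2)

/-- The cube. -/
def cube (N : ℕ) : Set (Fin N → ℝ) := {x | ∀ j, |x j| ≤ 1}

/-- The open cube. -/
def ocube (N : ℕ) : Set (Fin N → ℝ) := {x | ∀ j, |x j| < 1}

theorem isCompact_cube (N : ℕ) : IsCompact (cube N) := by
  have h : cube N = Set.Icc (fun _ => (-1 : ℝ)) (fun _ => 1) := by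
    ext x
    simp only [cube, Set.mem_ofPred_eq, Set.mem_Icc, Pi.le_def, abs_le]
    exact forall_and
  rw [h]
  exact isCompact_Icc

theorem isClosed_cube (N : ℕ) : IsClosed (cube N) := (isCompact_cube N).isClosed

theorem isOpen_ocube (N : ℕ) : IsOpen (ocube N) := by
  have h : ocube N = ⋂ j, {x : Fin N → ℝ | |x j| < 1} := by
    ext x; simp [ocube]
  rw [h]
  exact isOpen_iInter_of_finite fun j => isOpen_lt (by fun_prop) continuous_const

theorem ocube_subset (N : ℕ) : ocube N ⊆ cube N := fun _ hx j => (hx j).le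

theorem smul_mem_ocube {N : ℕ} {x : Fin N → ℝ} (hx : x ∈ cube N) {s : ℝ} (h0 : 0 ≤ s)
    (h1 : s < 1) : s • x ∈ ocube N := by
  intro j
  have h2 := hx j
  rw [Pi.smul_apply, smul_eq_mul, abs_mul, abs_of_nonneg h0]
  nlinarith [abs_nonneg (x j)]

theorem zero_mem_cube (N : ℕ) : (0 : Fin N → ℝ) ∈ cube N := fun j => by simp

/-- A real polynomial vanishing on a nonempty open set vanishes everywhere. -/
theorem eval_eq_zero_of_open {N : ℕ} (p : MvPolynomial (Fin N) ℝ) {U : Set (Fin N → ℝ)}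
    (hU : IsOpen U) (hne : U.Nonempty) (h : ∀ x ∈ U, MvPolynomial.eval x p = 0)
    (y : Fin N → ℝ) : MvPolynomial.eval y p = 0 := by
  obtain ⟨x, hx⟩ := hne
  obtain ⟨ε, hε, hball⟩ := Metric.isOpen_iff.1 hU x hx
  -- restrict to the line through `x` and `y`
  let γ : Fin N → Polynomial ℝ := fun i =>
    Polynomial.C (x i) + Polynomial.X * Polynomial.C (y i - x i)
  let P : Polynomial ℝ := MvPolynomial.eval₂ Polynomial.C γ p
  have hP : ∀ t : ℝ, P.eval t = MvPolynomial.eval (fun i => x i + t * (y i - x i)) p := by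
    intro t
    have h1 := MvPolynomial.hom_eval₂ p Polynomial.C (Polynomial.evalRingHom t) γ
    rw [Polynomial.coe_evalRingHom] at h1
    change Polynomial.eval t P = _
    rw [h1]
    simp only [MvPolynomial.eval, MvPolynomial.coe_eval₂Hom]
    congr 1
    · ext a; simp
    · funext i; simp [γ]
  have hinf : Set.Infinite {t : ℝ | P.eval t = 0} := by
    have hc : Tendsto (fun t : ℝ => fun i => x i + t * (y i - x i)) (𝓝 0) (𝓝 x) := by
      have h2 : Continuous (fun t : ℝ => fun i => x i + t * (y i - x i)) := by fun_prop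
      have h3 := h2.tendsto 0
      simpa using h3
    have hev : ∀ᶠ t in 𝓝 (0:ℝ), (fun i => x i + t * (y i - x i)) ∈ U :=
      hc.eventually (hU.mem_nhds hx)
    have hmem : {t : ℝ | P.eval t = 0} ∈ 𝓝 (0:ℝ) := by
      filter_upwards [hev] with t ht
      have h4 : P.eval t = 0 := by rw [hP, h _ ht]
      exact h4
    exact infinite_of_mem_nhds 0 hmem
  have hP0 : P = 0 := Polynomial.eq_zero_of_infinite_isRoot P hinf
  have := hP 1
  rw [hP0] at this
  simp only [Polynomial.eval_zero, one_mul, add_sub_cancel] at this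
  exact this.symm

end Pool.Agent.R537.RN
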