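import Pool.Agent.R537.RN.Block

/-!
# The maximum over a cube of a function satisfying a polynomial relation
-/

set_option autoImplicit false

namespace Pool.Agent.R537.RN

open Finset Filter Topology Pool.Agent.H612

/-- The topological part. -/
theorem block_top {N : ℕ} (G : (Fin N → ℝ) → ℝ → ℝ)
    (hG : Continuous (fun p : (Fin N → ℝ) × ℝ => G p.1 p.2))
    (h : (Fin N → ℝ) → ℝ) (v : ℝ) (hcont : ContinuousOn h (cube N))
    (hrel : ∀ x ∈ cube N, G x (h x) = 0)
    (hne : ∀ᶠ t in 𝓝[<] v, ∀ U : Set (Fin N → ℝ), IsOpen U → U.Nonempty → ∃ x ∈ U, G x t ≠ 0)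
    (hv : IsGreatest (h '' cube N) v) :
    ∃ (U : ℝ → Set (Fin N → ℝ)) (M : ℝ → ℝ), (∀ t, IsOpen (U t)) ∧
      (∀ t, Bornology.IsBounded (U t)) ∧
      (∀ t, ∀ x ∈ frontier (U t), (G x t * ∏ j, (1 - x j ^ 2)) ^ 2 = 0) ∧
      (∀ᶠ t in 𝓝[<] v, IsLUB ((fun x => (G x t * ∏ j, (1 - x j ^ 2)) ^ 2) '' U t) (M t) ∧
        0 < M t) ∧ Tendsto M (𝓝[<] v) (𝓝 0) := by
  classical
  obtain ⟨U, hUdef⟩ : ∃ U : ℝ → Set (Fin N → ℝ), ∀ t, U t = ocube N ∩ {x | t < h x} :=
    ⟨_, fun t => rfl⟩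
  have hUmem : ∀ t x, x ∈ U t ↔ x ∈ ocube N ∧ t < h x := by
    intro t x
    rw [hUdef]
    rfl
  obtain ⟨g, hg⟩ : ∃ g : (Fin N → ℝ) → ℝ → ℝ,
      ∀ x t, g x t = (G x t * ∏ j, (1 - x j ^ 2)) ^ 2 := ⟨_, fun x t => rfl⟩
  have hcontO : ContinuousOn h (ocube N) := hcont.mono (ocube_subset N)
  have hUo : ∀ t, IsOpen (U t) := by
    intro t
    rw [hUdef]
    exact hcontO.isOpen_inter_preimage (isOpen_ocube N) (isOpen_lt continuous_const continuous_id)
  have hUsub : ∀ t, U t ⊆ cube N := fun t x hx => ocube_subset N ((hUmem t x).1 hx).1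
  have hUb : ∀ t, Bornology.IsBounded (U t) := fun t =>
    (isCompact_cube N).isBounded.subset (hUsub t)
  have hgc : Continuous (fun p : (Fin N → ℝ) × ℝ => g p.1 p.2) := by
    simp_rw [hg]
    refine Continuous.pow (Continuous.mul hG ?_) 2
    fun_prop
  have hclQ : ∀ t, ∀ x ∈ closure (U t), x ∈ cube N ∧ t ≤ h x := by
    intro t
    have hcl : IsClosed (cube N ∩ {x | t ≤ h x}) :=
      hcont.preimage_isClosed_of_isClosed (isClosed_cube N)
        (isClosed_le continuous_const continuous_id)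
    have h0 : closure (U t) ⊆ cube N ∩ {x | t ≤ h x} := by
      refine closure_minimal (fun x hx => ?_) hcl
      have h1 := (hUmem t x).1 hx
      exact ⟨ocube_subset N h1.1, h1.2.le⟩
    intro x hx
    exact h0 hx
  have hfr : ∀ t, ∀ x ∈ frontier (U t), g x t = 0 := by
    intro t x hx
    rw [(hUo t).frontier_eq] at hx
    obtain ⟨h1, h2⟩ := hclQ t x hx.1
    by_cases hxo : x ∈ ocube N
    · have h3 : h x ≤ t := by
        by_contra h4
        exact hx.2 ((hUmem t x).2 ⟨hxo, not_le.1 h4⟩)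
      have h4 : h x = t := le_antisymm h3 h2
      have h5 := hrel x h1
      rw [h4] at h5
      rw [hg, h5]
      ring
    · have h3 : ∃ j, 1 - x j ^ 2 = 0 := by
        simp only [ocube, Set.mem_ofPred_eq, not_forall, not_lt] at hxo
        obtain ⟨j, hj⟩ := hxo
        refine ⟨j, ?_⟩
        have h6 : |x j| = 1 := le_antisymm (h1 j) hj
        have h7 : x j ^ 2 = 1 := by rw [← sq_abs, h6]; norm_num
        rw [h7]; ring
      obtain ⟨j, hj⟩ := h3
      rw [hg, Finset.prod_eq_zero (mem_univ j) hj]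
      ring
  -- the sets are nonempty below `v`
  obtain ⟨⟨xs, hxs, hxv⟩, hvub⟩ := hv
  have hUne : ∀ t < v, (U t).Nonempty := by
    intro t ht
    have hlt : ∀ᶠ s in 𝓝[<] (1:ℝ), s < 1 ∧ 0 < s := by
      filter_upwards [self_mem_nhdsWithin, (nhdsWithin_le_nhds : 𝓝[<] (1:ℝ) ≤ 𝓝 1)
          (lt_mem_nhds (show (0:ℝ) < 1 by norm_num))] with s hs hs0
      exact ⟨hs, hs0⟩
    have hc1 : Tendsto (fun s : ℝ => s • xs) (𝓝[<] 1) (𝓝[cube N] xs) := by
      rw [tendsto_nhdsWithin_iff]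
      constructor
      · have : Continuous (fun s : ℝ => s • xs) := by fun_prop
        have h1 := (this.tendsto 1).mono_left (nhdsWithin_le_nhds (s := Set.Iio 1))
        simpa using h1
      · filter_upwards [hlt] with s hs
        exact ocube_subset N (smul_mem_ocube hxs hs.2.le hs.1)
    have hc2 : Tendsto (fun s : ℝ => h (s • xs)) (𝓝[<] 1) (𝓝 (h xs)) :=
      (hcont xs hxs).tendsto.comp hc1
    have hev : ∀ᶠ s in 𝓝[<] (1:ℝ), t < h (s • xs) :=
      hc2.eventually (lt_mem_nhds (by rw [hxv]; exact ht))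
    obtain ⟨s, hs1, hs2⟩ := (hev.and hlt).exists
    exact ⟨s • xs, (hUmem t _).2 ⟨smul_mem_ocube hxs hs2.2.le hs2.1, hs1⟩⟩
  -- the suprema
  have hbdd : ∀ t, BddAbove ((fun x => g x t) '' U t) := by
    intro t
    have h1 : IsCompact ((fun x => g x t) '' cube N) := by
      refine (isCompact_cube N).image ?_
      exact hgc.comp (by fun_prop : Continuous fun x : Fin N → ℝ => (x, t))
    exact h1.bddAbove.mono (Set.image_mono (hUsub t))
  have hM : ∀ t < v, IsLUB ((fun x => g x t) '' U t) (sSup ((fun x => g x t) '' U t)) :=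
    fun t ht => isLUB_csSup ((hUne t ht).image _) (hbdd t)
  generalize hMdef : (fun t => sSup ((fun x => g x t) '' U t)) = M at *
  have hM' : ∀ t < v, IsLUB ((fun x => g x t) '' U t) (M t) := by
    intro t ht
    rw [← hMdef]
    exact hM t ht
  have hMpos : ∀ᶠ t in 𝓝[<] v, 0 < M t := by
    filter_upwards [hne, self_mem_nhdsWithin] with t ht1 ht2
    obtain ⟨x1, hx1, hx1n⟩ := ht1 (U t) (hUo t) (hUne t ht2)
    have h5 : 0 < g x1 t := by
      have h6 : ∏ j, (1 - x1 j ^ 2) ≠ 0 := by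
        apply Finset.prod_ne_zero_iff.2
        intro j _
        have := ((hUmem t x1).1 hx1).1 j
        have h7 : x1 j ^ 2 < 1 := by rw [← sq_abs]; nlinarith [abs_nonneg (x1 j)]
        linarith
      rw [hg]
      positivity
    exact lt_of_lt_of_le h5 ((hM' t ht2).1 ⟨x1, hx1, rfl⟩)
  have hMlim : Tendsto M (𝓝[<] v) (𝓝 0) := by
    rw [tendsto_order]
    constructor
    · intro m' hm'
      filter_upwards [hMpos] with t ht
      linarith
    · intro ε hε
      -- compactness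
      have hA : ∀ᶠ t in 𝓝[<] v, ∀ x ∈ U t, g x t ≤ ε / 2 := by
        by_contra hcon
        rw [Filter.not_eventually] at hcon
        obtain ⟨ts, hts, hfs⟩ := exists_seq_forall_of_frequently hcon
        have h7 : ∀ n, ∃ x ∈ U (ts n), ε / 2 < g x (ts n) := by
          intro n
          have := hfs n
          push Not at this
          exact this
        choose xs' hxs' hgs using h7
        obtain ⟨a, ha, ψ, hψ, hψl⟩ := (isCompact_cube N).tendsto_subseq
          (fun n => hUsub _ (hxs' n))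
        have hts' : Tendsto (fun n => ts (ψ n)) atTop (𝓝 v) :=
          (tendsto_nhds_of_tendsto_nhdsWithin hts).comp hψ.tendsto_atTop
        have h8 : Tendsto (fun n => g (xs' (ψ n)) (ts (ψ n))) atTop (𝓝 (g a v)) :=
          (hgc.tendsto (a, v)).comp (hψl.prodMk_nhds hts')
        have h9 : ε / 2 ≤ g a v :=
          ge_of_tendsto h8 (Eventually.of_forall fun n => (hgs (ψ n)).le)
        have h10 : Tendsto (fun n => h (xs' (ψ n))) atTop (𝓝 (h a)) := by
          refine (hcont a ha).tendsto.comp ?_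
          rw [tendsto_nhdsWithin_iff]
          exact ⟨hψl, Eventually.of_forall fun n => hUsub _ (hxs' (ψ n))⟩
        have h11 : v ≤ h a :=
          le_of_tendsto_of_tendsto' hts' h10 fun n => ((hUmem _ _).1 (hxs' (ψ n))).2.le
        have h12 : h a ≤ v := hvub ⟨a, ha, rfl⟩
        have h13 : h a = v := le_antisymm h12 h11
        have h14 := hrel a ha
        rw [h13] at h14
        have h15 : g a v = 0 := by
          rw [hg, h14]; ring
        linarith
      filter_upwards [hA, self_mem_nhdsWithin] with t ht1 ht2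
      have h16 : M t ≤ ε / 2 := (hM' t ht2).2 (by rintro _ ⟨x, hx, rfl⟩; exact ht1 x hx)
      linarith
  refine ⟨U, M, hUo, hUb, ?_, ?_, hMlim⟩
  · intro t x hx
    rw [← hg]
    exact hfr t x hx
  · filter_upwards [hMpos, self_mem_nhdsWithin] with t ht1 ht2
    simp_rw [← hg]
    exact ⟨hM' t ht2, ht1⟩

variable {K : Type} [CommRing K]

theorem cont_eval_pair {N : ℕ} (φ : K →+* ℝ) (H : Polynomial (MvPolynomial (Fin N) K)) :
    Continuous (fun p : (Fin N → ℝ) × ℝ => H.eval₂ (MvPolynomial.eval₂Hom φ p.1) p.2) := by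
  simp_rw [Polynomial.eval₂_eq_sum, Polynomial.sum_def]
  refine continuous_finsetSum _ fun j _ => ?_
  refine Continuous.mul ?_ (continuous_snd.pow j)
  exact (eval₂_cont φ (H.coeff j)).comp continuous_fst

/-- Factoring out a power of the variable. -/
theorem exists_trailing {R : Type} [CommRing R] (Υ : Polynomial R) (h : Υ ≠ 0) :
    ∃ r : ℕ, ∃ Υ' : Polynomial R, Υ = Polynomial.X ^ r * Υ' ∧ Υ'.coeff 0 ≠ 0 ∧
      Υ'.coeff 0 = Υ.coeff r := by
  refine ⟨Υ.natTrailingDegree, ?_⟩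
  have h1 : Polynomial.X ^ Υ.natTrailingDegree ∣ Υ := by
    rw [Polynomial.X_pow_dvd_iff]
    intro d hd
    exact Polynomial.coeff_eq_zero_of_lt_natTrailingDegree hd
  obtain ⟨Υ', hΥ'⟩ := h1
  have h2 : Υ'.coeff 0 = Υ.coeff Υ.natTrailingDegree := by
    have h3 := Polynomial.coeff_X_pow_mul Υ' Υ.natTrailingDegree 0
    rw [zero_add, ← hΥ'] at h3
    exact h3.symm
  refine ⟨Υ', hΥ', ?_, h2⟩
  rw [h2]
  exact Polynomial.trailingCoeff_nonzero_iff_nonzero.2 h

/-- Nonvanishing at almost all levels. -/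
theorem exc_levels {N : ℕ} (φ : K →+* ℝ) (H : Polynomial (MvPolynomial (Fin N) K))
    (x0 : Fin N → ℝ) (t0 : ℝ) (hne : H.eval₂ (MvPolynomial.eval₂Hom φ x0) t0 ≠ 0) (v : ℝ) :
    ∀ᶠ t in 𝓝[<] v, ∀ U : Set (Fin N → ℝ), IsOpen U → U.Nonempty →
      ∃ x ∈ U, H.eval₂ (MvPolynomial.eval₂Hom φ x) t ≠ 0 := by
  obtain ⟨p0, hp0e⟩ : ∃ p0 : Polynomial ℝ,
      ∀ t, H.eval₂ (MvPolynomial.eval₂Hom φ x0) t = p0.eval t :=
    ⟨H.map (MvPolynomial.eval₂Hom φ x0), fun t => Polynomial.eval₂_eq_eval_map _⟩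
  have hp0 : p0 ≠ 0 := by
    intro h0
    apply hne
    rw [hp0e, h0, Polynomial.eval_zero]
  have hfin : {t : ℝ | p0.eval t = 0}.Finite := by
    refine (p0.roots.toFinset.finite_toSet).subset fun t ht => ?_
    simp only [Finset.mem_coe, Multiset.mem_toFinset]
    exact (Polynomial.mem_roots hp0).2 ht
  have h1 : ({t : ℝ | p0.eval t = 0} \ {v})ᶜ ∈ 𝓝 v := by
    refine (hfin.subset Set.sdiff_subset).isClosed.isOpen_compl.mem_nhds ?_
    simp
  filter_upwards [nhdsWithin_le_nhds h1, self_mem_nhdsWithin] with t ht1 ht2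
  intro U hUo hUne
  by_contra hcon
  push Not at hcon
  apply ht1
  refine ⟨?_, ne_of_lt ht2⟩
  have hp : ∀ x, MvPolynomial.eval x (MvPolynomial.map (Polynomial.eval₂RingHom φ t) (θ N H)) =
      H.eval₂ (MvPolynomial.eval₂Hom φ x) t := by
    intro x
    rw [← eval_θ, MvPolynomial.eval_map]
  have h4 := eval_eq_zero_of_open
    (MvPolynomial.map (Polynomial.eval₂RingHom φ t) (θ N H)) hUo hUne
    (fun x hx => by rw [hp]; exact hcon x hx) x0
  rw [hp, hp0e] at h4
  exact h4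

theorem cont_eval₂_pair' (φ : K →+* ℝ) (Υ' : Polynomial (Polynomial K)) :
    Continuous (fun p : ℝ × ℝ => Υ'.eval₂ (Polynomial.eval₂RingHom φ p.1) p.2) := by
  simp_rw [Polynomial.eval₂_eq_sum, Polynomial.sum_def]
  refine continuous_finsetSum _ fun j _ => ?_
  refine Continuous.mul ?_ (continuous_snd.pow j)
  have h1 : Continuous (fun t : ℝ => (Υ'.coeff j).eval₂ φ t) := by
    simp_rw [Polynomial.eval₂_eq_sum, Polynomial.sum_def]
    fun_prop
  exact h1.comp continuous_fst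

/-- **The block lemma.** -/
theorem block_max [Nontrivial K] (nr : RNorm K) (hpos : ∀ c : K, c ≠ 0 → 1 ≤ nr.ν c) {N : ℕ}
    (H : Polynomial (MvPolynomial (Fin N) K)) (B : ℕ) (hB : (wm nr N).poly.ν H ≤ B)
    (hB1 : 1 ≤ B) :
    ∃ P : Polynomial K, P ≠ 0 ∧ nr.poly.ν P ≤ bndL N B ∧
      ∀ (φ : K →+* ℝ) (h : (Fin N → ℝ) → ℝ) (v : ℝ), ContinuousOn h (cube N) →
        (∀ x ∈ cube N, H.eval₂ (MvPolynomial.eval₂Hom φ x) (h x) = 0) →
        (∃ (x : Fin N → ℝ) (t : ℝ), H.eval₂ (MvPolynomial.eval₂Hom φ x) t ≠ 0) →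
        IsGreatest (h '' cube N) v → P.eval₂ φ v = 0 := by
  classical
  obtain ⟨D, hD⟩ : ∃ D, D = Nat.log 2 B := ⟨_, rfl⟩
  have hdeg : DegLE (θ N H) D := by
    rw [hD]
    exact deg_θ nr hpos H (lt_of_le_of_lt hB (Nat.lt_pow_succ_log_self (by norm_num) B))
  have hΓdeg : DegLE (ΓH H) (qL N D) := by
    unfold ΓH qL
    rw [pow_two]
    have h1 := hdeg.mul (deg_bdP N (Polynomial K))
    exact (h1.mul h1).mono (by omega)
  have hΓν : nr.poly.mν (ΓH H) ≤ (B * 2 ^ N) ^ 2 := by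
    unfold ΓH
    rw [pow_two, pow_two]
    have h1 : nr.poly.mν (θ N H * bdP N (Polynomial K)) ≤ B * 2 ^ N :=
      (nr.poly.mν_mul _ _).trans (Nat.mul_le_mul ((mν_θ nr H).trans hB) (mν_bdP nr.poly N))
    exact (nr.poly.mν_mul _ _).trans (Nat.mul_le_mul h1 h1)
  have hodd : Odd (qL N D) := ⟨D + N * 2, rfl⟩
  have hBpos : 1 ≤ (B * 2 ^ N) ^ 2 := Nat.one_le_pow _ _ (Nat.mul_pos hB1 (by positivity))
  obtain ⟨Υ, hΥ0, hΥν, hΥ⟩ := exists_max_relation nr.poly hodd (ΓH H) hΓdeg _ hΓν hBpos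
  obtain ⟨r, Υ', hfac, hP0, hPr⟩ := exists_trailing Υ hΥ0
  refine ⟨Υ'.coeff 0, hP0, ?_, ?_⟩
  · rw [hPr]
    refine (nr.poly.ν_coeff_le Υ r).trans ?_
    unfold bndL
    rw [← hD]
    exact hΥν
  · intro φ h v hcont hrel ⟨x0, t0, hne⟩ hv
    obtain ⟨U, M, hUo, hUb, hfr, hM, hMlim⟩ := block_top
      (fun x t => H.eval₂ (MvPolynomial.eval₂Hom φ x) t) (cont_eval_pair φ H) h v hcont hrel
      (exc_levels φ H x0 t0 hne v) hv
    simp_rw [← eval_ΓH] at hfr hM
    -- the relation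
    have hrel' : ∀ᶠ t in 𝓝[<] v,
        Υ'.eval₂ (Polynomial.eval₂RingHom φ t) ((qL N D + 1) * M t) = 0 := by
      filter_upwards [hM] with t ht
      have h1 := hΥ (Polynomial.eval₂RingHom φ t) (U t) (M t) (hUo t) (hUb t)
        (hfr t) ht.1 ht.2
      rw [hfac, Polynomial.eval₂_mul, Polynomial.eval₂_pow, Polynomial.eval₂_X] at h1
      have h2 := ht.2
      have h3 : ((qL N D + 1 : ℝ) * M t) ^ r ≠ 0 := by positivity
      exact (mul_eq_zero.1 h1).resolve_left h3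
    -- the limit
    have hid : Tendsto (fun t : ℝ => t) (𝓝[<] v) (𝓝 v) :=
      tendsto_id.mono_left nhdsWithin_le_nhds
    have hm0 : Tendsto (fun t => ((qL N D : ℝ) + 1) * M t) (𝓝[<] v) (𝓝 0) := by
      have := hMlim.const_mul ((qL N D : ℝ) + 1)
      rwa [mul_zero] at this
    have hlim := ((cont_eval₂_pair' φ Υ').tendsto (v, 0)).comp (hid.prodMk_nhds hm0)
    have hlim0 : Tendsto (fun _ : ℝ => (0 : ℝ)) (𝓝[<] v)
        (𝓝 (Υ'.eval₂ (Polynomial.eval₂RingHom φ v) 0)) := by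
      refine hlim.congr' ?_
      filter_upwards [hrel'] with t ht
      exact ht
    have h0 := tendsto_nhds_unique hlim0 tendsto_const_nhds
    rw [Polynomial.eval₂_at_zero] at h0
    exact h0

end Pool.Agent.R537.RN
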