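import Pool.Agent.R537.RN.Loj
import Pool.Agent.ER.ToSys

/-!
# Homogenised systems of constraints
-/

set_option autoImplicit false

namespace Pool.Agent.R537.RN

open Finset Filter Topology Pool.Agent.H612 Pool.Agent.NPC

section forms

variable {R : Type} [CommRing R] {R' : Type} [CommRing R']

/-- The homogeneous quadratic form of a constraint. -/
def cerr (V : ℕ → R) (w : R) : ER.Con → R
  | .one i => w * (V i - w)
  | .add i j k => w * (V i + V j - V k)
  | .mul i j k => V i * V j - w * V k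

/-- The sum of the squares of the forms of a system. -/
def qsum (V : ℕ → R) (w : R) (S : List ER.Con) : R := (S.map fun c => cerr V w c ^ 2).sum

@[simp] theorem qsum_nil (V : ℕ → R) (w : R) : qsum V w [] = 0 := rfl

@[simp] theorem qsum_cons (V : ℕ → R) (w : R) (c : ER.Con) (S : List ER.Con) :
    qsum V w (c :: S) = cerr V w c ^ 2 + qsum V w S := by simp [qsum]

theorem cerr_map (f : R →+* R') (V : ℕ → R) (w : R) (c : ER.Con) :
    f (cerr V w c) = cerr (fun i => f (V i)) (f w) c := by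
  cases c <;> simp [cerr]

theorem qsum_map (f : R →+* R') (V : ℕ → R) (w : R) (S : List ER.Con) :
    f (qsum V w S) = qsum (fun i => f (V i)) (f w) S := by
  induction S with
  | nil => simp
  | cons c S ih => simp [ih, cerr_map]

theorem cerr_scale (τ : R) (V : ℕ → R) (w : R) (c : ER.Con) :
    cerr (fun i => τ * V i) (τ * w) c = τ ^ 2 * cerr V w c := by
  cases c <;> simp only [cerr] <;> ring

theorem qsum_scale (τ : R) (V : ℕ → R) (w : R) (S : List ER.Con) :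
    qsum (fun i => τ * V i) (τ * w) S = τ ^ 4 * qsum V w S := by
  induction S with
  | nil => simp
  | cons c S ih =>
    rw [qsum_cons, qsum_cons, ih, cerr_scale]
    ring

theorem qsum_nonneg (V : ℕ → ℝ) (w : ℝ) (S : List ER.Con) : 0 ≤ qsum V w S := by
  induction S with
  | nil => simp
  | cons c S ih =>
    rw [qsum_cons]
    positivity

theorem cerr_one_iff (V : ℕ → ℝ) (c : ER.Con) : cerr V 1 c = 0 ↔ c.Holds V := by
  cases c <;> simp [cerr, ER.Con.Holds, sub_eq_zero]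

theorem qsum_one_iff (V : ℕ → ℝ) (S : List ER.Con) : qsum V 1 S = 0 ↔ ER.SysHolds V S := by
  induction S with
  | nil => simp [ER.sysHolds_nil]
  | cons c S ih =>
    rw [qsum_cons, ER.sysHolds_cons, ← cerr_one_iff, ← ih]
    have h1 := qsum_nonneg V 1 S
    have h2 := sq_nonneg (cerr V 1 c)
    constructor
    · intro h
      exact ⟨pow_eq_zero_iff (two_ne_zero) |>.1 (by linarith), by linarith⟩
    · rintro ⟨h3, h4⟩
      rw [h3, h4]; ring

theorem cerr_ν (nr : RNorm R) (V : ℕ → R) (w : R) (a : ℕ) (hV : ∀ i, nr.ν (V i) ≤ a)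
    (hw : nr.ν w ≤ a) (c : ER.Con) : nr.ν (cerr V w c) ≤ 3 * a ^ 2 := by
  cases c with
  | one i =>
    simp only [cerr]
    calc _ ≤ nr.ν w * nr.ν (V i - w) := nr.mul _ _
      _ ≤ a * (a + a) := Nat.mul_le_mul hw ((nr.sub _ _).trans (Nat.add_le_add (hV i) hw))
      _ ≤ 3 * a ^ 2 := by nlinarith
  | add i j k =>
    simp only [cerr]
    calc _ ≤ nr.ν w * nr.ν (V i + V j - V k) := nr.mul _ _
      _ ≤ a * ((a + a) + a) := Nat.mul_le_mul hw ((nr.sub _ _).trans (Nat.add_le_add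
          ((nr.add _ _).trans (Nat.add_le_add (hV i) (hV j))) (hV k)))
      _ ≤ 3 * a ^ 2 := by nlinarith
  | mul i j k =>
    simp only [cerr]
    calc _ ≤ nr.ν (V i * V j) + nr.ν (w * V k) := nr.sub _ _
      _ ≤ a * a + a * a := Nat.add_le_add
          ((nr.mul _ _).trans (Nat.mul_le_mul (hV i) (hV j)))
          ((nr.mul _ _).trans (Nat.mul_le_mul hw (hV k)))
      _ ≤ 3 * a ^ 2 := by nlinarith

theorem qsum_ν (nr : RNorm R) (V : ℕ → R) (w : R) (a : ℕ) (hV : ∀ i, nr.ν (V i) ≤ a)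
    (hw : nr.ν w ≤ a) (S : List ER.Con) : nr.ν (qsum V w S) ≤ 9 * a ^ 4 * S.length := by
  induction S with
  | nil => simp [nr.zero]
  | cons c S ih =>
    rw [qsum_cons, List.length_cons]
    have h1 := cerr_ν nr V w a hV hw c
    have h2 : nr.ν (cerr V w c ^ 2) ≤ (3 * a ^ 2) * (3 * a ^ 2) := by
      rw [pow_two]
      exact (nr.mul _ _).trans (Nat.mul_le_mul h1 h1)
    calc _ ≤ nr.ν (cerr V w c ^ 2) + nr.ν (qsum V w S) := nr.add _ _
      _ ≤ (3 * a ^ 2) * (3 * a ^ 2) + 9 * a ^ 4 * S.length := Nat.add_le_add h2 ih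
      _ = 9 * a ^ 4 * (S.length + 1) := by ring

/-- The values of the variables, given in three blocks. -/
def pick {n m l : ℕ} (loc : ℕ → Fin n ⊕ (Fin m ⊕ Fin l)) (x : Fin n → R) (y : Fin m → R)
    (z : Fin l → R) (i : ℕ) : R := Sum.elim x (Sum.elim y z) (loc i)

variable {n m l : ℕ} (loc : ℕ → Fin n ⊕ (Fin m ⊕ Fin l))

theorem pick_map (f : R →+* R') (x : Fin n → R) (y : Fin m → R) (z : Fin l → R) (i : ℕ) :
    f (pick loc x y z i) = pick loc (fun j => f (x j)) (fun j => f (y j)) (fun j => f (z j)) i := by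
  unfold pick
  rcases loc i with j | j | j <;> rfl

theorem pick_scale (τ : R) (x : Fin n → R) (y : Fin m → R) (z : Fin l → R) (i : ℕ) :
    τ * pick loc x y z i = pick loc (fun j => τ * x j) (fun j => τ * y j) (fun j => τ * z j) i := by
  unfold pick
  rcases loc i with j | j | j <;> rfl

theorem pick_ν (nr : RNorm R) (x : Fin n → R) (y : Fin m → R) (z : Fin l → R) (a : ℕ)
    (hx : ∀ j, nr.ν (x j) ≤ a) (hy : ∀ j, nr.ν (y j) ≤ a) (hz : ∀ j, nr.ν (z j) ≤ a) (i : ℕ) :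
    nr.ν (pick loc x y z i) ≤ a := by
  unfold pick
  rcases loc i with j | j | j
  · exact hx j
  · exact hy j
  · exact hz j

/-- The main polynomial. -/
def Phi (S : List ER.Con) (σ r γ t tK rK : R) (x : Fin n → R) (y : Fin m → R) (z : Fin l → R) :
    R :=
  (r ^ 2 + γ ^ 2) * qsum (pick loc (fun j => r * t * x j) (fun j => σ * t * y j)
    (fun j => σ * r * z j)) (σ * r * t) S - σ ^ 4 * r ^ 6 * tK + σ ^ 5 * rK

theorem Phi_map (f : R →+* R') (S : List ER.Con) (σ r γ t tK rK : R) (x : Fin n → R)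
    (y : Fin m → R) (z : Fin l → R) :
    f (Phi loc S σ r γ t tK rK x y z) = Phi loc S (f σ) (f r) (f γ) (f t) (f tK) (f rK)
      (fun j => f (x j)) (fun j => f (y j)) (fun j => f (z j)) := by
  simp only [Phi, map_add, map_sub, map_mul, map_pow, qsum_map, pick_map]

theorem Phi_scale (S : List ER.Con) (σ r γ t tK rK : R) (x : Fin n → R)
    (y : Fin m → R) (z : Fin l → R) :
    Phi loc S σ r γ t tK rK (fun j => σ * x j) y z =
      σ ^ 4 * Phi loc S 1 r γ t tK (σ * rK) x y z := by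
  have h : qsum (pick loc (fun j => r * t * (σ * x j)) (fun j => σ * t * y j)
      (fun j => σ * r * z j)) (σ * r * t) S = σ ^ 4 * qsum (pick loc (fun j => r * t * x j)
      (fun j => 1 * t * y j) (fun j => 1 * r * z j)) (1 * r * t) S := by
    rw [← qsum_scale]
    congr 1
    · funext i
      rw [pick_scale]
      congr 1
      · funext j; ring
      · funext j; ring
      · funext j; ring
    · ring
  simp only [Phi]
  rw [h]
  ring

theorem Phi_unscale (S : List ER.Con) (r γ t tK rK : R) (x : Fin n → R)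
    (y : Fin m → R) (z : Fin l → R) :
    Phi loc S 1 r (r * γ) t tK rK x (fun j => r * y j) z =
      r ^ 6 * ((1 + γ ^ 2) * qsum (pick loc (fun j => t * x j) (fun j => t * y j) z) t S - tK)
        + rK := by
  have h : qsum (pick loc (fun j => r * t * x j) (fun j => 1 * t * (r * y j))
      (fun j => 1 * r * z j)) (1 * r * t) S = r ^ 4 * qsum (pick loc (fun j => t * x j)
      (fun j => t * y j) z) t S := by
    rw [← qsum_scale]
    congr 1
    · funext i
      rw [pick_scale]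
      congr 1
      · funext j; ring
      · funext j; ring
      · funext j; ring
    · ring
  simp only [Phi]
  rw [h]
  ring

theorem Phi_ν (nr : RNorm R) (S : List ER.Con) (σ r γ t tK rK : R) (x : Fin n → R)
    (y : Fin m → R) (z : Fin l → R) (A A' : ℕ) (hσ : nr.ν σ ≤ 2) (hr : nr.ν r ≤ 4)
    (hγ : nr.ν γ ≤ 2) (ht : nr.ν t ≤ 4) (htK : nr.ν tK ≤ A) (hrK : nr.ν rK ≤ A')
    (hx : ∀ j, nr.ν (x j) ≤ 2) (hy : ∀ j, nr.ν (y j) ≤ 2) (hz : ∀ j, nr.ν (z j) ≤ 2) :
    nr.ν (Phi loc S σ r γ t tK rK x y z) ≤ 188743680 * S.length + 65536 * A + 32 * A' := by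
  have hpow : ∀ (a : R) (b k : ℕ), nr.ν a ≤ b → nr.ν (a ^ k) ≤ b ^ k := by
    intro a b k hab
    induction k with
    | zero => simpa using nr.one
    | succ k ih =>
      rw [pow_succ, pow_succ]
      exact (nr.mul _ _).trans (Nat.mul_le_mul ih hab)
  have hmul : ∀ (a b : R) (p q : ℕ), nr.ν a ≤ p → nr.ν b ≤ q → nr.ν (a * b) ≤ p * q :=
    fun a b p q h1 h2 => (nr.mul _ _).trans (Nat.mul_le_mul h1 h2)
  have h1 : nr.ν (qsum (pick loc (fun j => r * t * x j) (fun j => σ * t * y j)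
      (fun j => σ * r * z j)) (σ * r * t) S) ≤ 9 * 32 ^ 4 * S.length := by
    apply qsum_ν
    · apply pick_ν
      · intro j
        exact hmul _ _ _ _ (hmul _ _ _ _ hr ht) (hx j)
      · intro j
        exact (hmul _ _ _ _ (hmul _ _ _ _ hσ ht) (hy j)).trans (by norm_num)
      · intro j
        exact (hmul _ _ _ _ (hmul _ _ _ _ hσ hr) (hz j)).trans (by norm_num)
    · exact hmul _ _ _ _ (hmul _ _ _ _ hσ hr) ht
  have h2 : nr.ν (r ^ 2 + γ ^ 2) ≤ 20 :=
    (nr.add _ _).trans (Nat.add_le_add (hpow _ _ 2 hr) (hpow _ _ 2 hγ))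
  have h3 : nr.ν (σ ^ 4 * r ^ 6 * tK) ≤ 2 ^ 4 * 4 ^ 6 * A :=
    hmul _ _ _ _ (hmul _ _ _ _ (hpow _ _ 4 hσ) (hpow _ _ 6 hr)) htK
  have h4 : nr.ν (σ ^ 5 * rK) ≤ 2 ^ 5 * A' := hmul _ _ _ _ (hpow _ _ 5 hσ) hrK
  have h5 := hmul _ _ _ _ h2 h1
  unfold Phi
  calc _ ≤ (20 * (9 * 32 ^ 4 * S.length) + 2 ^ 4 * 4 ^ 6 * A) + 2 ^ 5 * A' :=
        (nr.add _ _).trans (Nat.add_le_add ((nr.sub _ _).trans (Nat.add_le_add h5 h3)) h4)
    _ = 188743680 * S.length + 65536 * A + 32 * A' := by ring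

end forms

/-! ### Weighted norms of variables and constants -/

section wn

variable {K : Type} [CommRing K] (nr : RNorm K) {N : ℕ}

theorem wm_C (c : K) : (wm nr N).ν (MvPolynomial.C c) = nr.ν c := by
  change wν nr (MvPolynomial.monomial 0 c) = _
  rw [wν_monomial]
  simp

theorem wm_X (j : Fin N) : (wm nr N).ν (MvPolynomial.X j) ≤ 2 := by
  change wν nr (MvPolynomial.monomial (Finsupp.single j 1) 1) ≤ 2
  rw [wν_monomial]
  have h : ∑ k, (Finsupp.single j 1 : Fin N →₀ ℕ) k = 1 := by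
    simp [Finsupp.single_apply]
  rw [h]
  have := nr.one
  omega

theorem ν_pow (a : K) (b k : ℕ) (h : nr.ν a ≤ b) : nr.ν (a ^ k) ≤ b ^ k := by
  induction k with
  | zero => simpa using nr.one
  | succ k ih =>
    rw [pow_succ, pow_succ]
    exact (nr.mul _ _).trans (Nat.mul_le_mul ih h)

theorem ν_X_add_C (c : K) : nr.poly.ν (Polynomial.X + Polynomial.C c) ≤ 1 + nr.ν c := by
  refine (nr.poly.add _ _).trans ?_
  rw [nr.poly_C]
  exact Nat.add_le_add_right nr.poly_X _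

end wn

section lvl

variable {K : Type} [CommRing K] {S : Type} [TopologicalSpace S] (L : Lvl K S) {N : ℕ}

theorem ext_φ_C (s : S × (Fin N → ℝ)) (c : K) :
    (L.ext N).φ s (MvPolynomial.C c) = L.φ s.1 c := by
  change MvPolynomial.eval₂Hom (L.φ s.1) s.2 (MvPolynomial.C c) = _
  simp

theorem ext_φ_X (s : S × (Fin N → ℝ)) (j : Fin N) :
    (L.ext N).φ s (MvPolynomial.X j) = s.2 j := by
  change MvPolynomial.eval₂Hom (L.φ s.1) s.2 (MvPolynomial.X j) = _
  simp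

end lvl

/-! ### The growth of the bounds -/

/-- The exponent of the bound after a block. -/
def Gx (N a : ℕ) : ℕ := (a + N + 4) * (N + 2)

theorem bndL_le (N a B : ℕ) (hB : B ≤ 2 ^ 2 ^ a) : bndL N B ≤ 2 ^ 2 ^ Gx N a := by
  have h2 : ∀ k : ℕ, k + 1 ≤ 2 ^ k := fun k => Nat.lt_two_pow_self
  have hlog : Nat.log 2 B ≤ 2 ^ a := by
    calc Nat.log 2 B ≤ Nat.log 2 (2 ^ 2 ^ a) := Nat.log_mono_right hB
      _ = 2 ^ a := Nat.log_pow (by norm_num) _
  set q := qL N (Nat.log 2 B) with hq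
  have hqle : q ≤ 2 ^ (a + N + 3) := by
    rw [hq]
    unfold qL
    have h3 : 2 ^ a ≤ 2 ^ (a + N) := Nat.pow_le_pow_right (by norm_num) (by omega)
    have h4 : N + 1 ≤ 2 ^ (a + N) := (h2 N).trans (Nat.pow_le_pow_right (by norm_num) (by omega))
    have h5 : 2 ^ (a + N + 3) = 8 * 2 ^ (a + N) := by rw [pow_add]; ring
    rw [h5]
    omega
  have hNle : N + 1 ≤ 2 ^ N := h2 N
  set C := (B * 2 ^ N) ^ 2 with hC
  have hCle : C ≤ 2 ^ 2 ^ (a + N + 2) := by
    rw [hC]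
    have h3 : B * 2 ^ N ≤ 2 ^ (2 ^ a + N) := by
      rw [pow_add]
      exact Nat.mul_le_mul_right _ hB
    calc (B * 2 ^ N) ^ 2 ≤ (2 ^ (2 ^ a + N)) ^ 2 := Nat.pow_le_pow_left h3 2
      _ = 2 ^ ((2 ^ a + N) * 2) := (pow_mul _ _ _).symm
      _ ≤ 2 ^ 2 ^ (a + N + 2) := by
        apply Nat.pow_le_pow_right (by norm_num)
        have h4 : 2 ^ a ≤ 2 ^ (a + N) := Nat.pow_le_pow_right (by norm_num) (by omega)
        have h5 : N + 1 ≤ 2 ^ (a + N) :=
          (h2 N).trans (Nat.pow_le_pow_right (by norm_num) (by omega))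
        have h6 : 2 ^ (a + N + 2) = 4 * 2 ^ (a + N) := by rw [pow_add]; ring
        omega
  have hqC : q * C ≤ 2 ^ 2 ^ (a + N + 3) := by
    calc q * C ≤ 2 ^ (a + N + 3) * 2 ^ 2 ^ (a + N + 2) := Nat.mul_le_mul hqle hCle
      _ = 2 ^ (a + N + 3 + 2 ^ (a + N + 2)) := (pow_add _ _ _).symm
      _ ≤ 2 ^ 2 ^ (a + N + 3) := by
        apply Nat.pow_le_pow_right (by norm_num)
        have h3 := h2 (a + N + 2)
        have h6 : 2 ^ (a + N + 3) = 2 * 2 ^ (a + N + 2) := by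
          rw [show a + N + 3 = (a + N + 2) + 1 by ring, pow_succ]; ring
        omega
  have hpow : (q * C) ^ (q + q * N) ≤ 2 ^ 2 ^ (2 * a + 3 * N + 6) := by
    have h3 : q + q * N ≤ 2 ^ (a + 2 * N + 3) := by
      calc q + q * N = q * (N + 1) := by ring
        _ ≤ 2 ^ (a + N + 3) * 2 ^ N := Nat.mul_le_mul hqle hNle
        _ = 2 ^ (a + 2 * N + 3) := by rw [← pow_add]; congr 1; ring
    calc (q * C) ^ (q + q * N) ≤ (2 ^ 2 ^ (a + N + 3)) ^ (q + q * N) :=
          Nat.pow_le_pow_left hqC _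
      _ ≤ (2 ^ 2 ^ (a + N + 3)) ^ (2 ^ (a + 2 * N + 3)) :=
          Nat.pow_le_pow_right (by positivity) h3
      _ = 2 ^ (2 ^ (a + N + 3) * 2 ^ (a + 2 * N + 3)) := (pow_mul _ _ _).symm
      _ = 2 ^ 2 ^ (2 * a + 3 * N + 6) := by
        rw [← pow_add]
        congr 2
        ring
  have hcoef : (q + 1 + N * q) * C ≤ 2 ^ (a + 2 * N + 4 + 2 ^ (a + N + 2)) := by
    have h3 : q + 1 + N * q ≤ 2 ^ (a + 2 * N + 4) := by
      have h4 : q * (N + 1) ≤ 2 ^ (a + N + 3) * 2 ^ N := Nat.mul_le_mul hqle hNle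
      have h5 : 2 ^ (a + N + 3) * 2 ^ N = 2 ^ (a + 2 * N + 3) := by
        rw [← pow_add]; congr 1; ring
      have h6 : 2 ^ (a + 2 * N + 4) = 2 * 2 ^ (a + 2 * N + 3) := by
        rw [show a + 2 * N + 4 = (a + 2 * N + 3) + 1 by ring, pow_succ]; ring
      have h7 : 1 ≤ 2 ^ (a + 2 * N + 3) := Nat.one_le_two_pow
      have h8 : q + 1 + N * q = q * (N + 1) + 1 := by ring
      omega
    rw [pow_add 2 (a + 2 * N + 4)]
    exact Nat.mul_le_mul h3 hCle
  have hbase : 1 + (q + 1 + N * q) * C * (q * C) ^ (q + q * N) ≤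
      2 ^ 2 ^ (2 * a + 3 * N + 8) := by
    have h3 : (q + 1 + N * q) * C * (q * C) ^ (q + q * N) ≤
        2 ^ (a + 2 * N + 4 + 2 ^ (a + N + 2) + 2 ^ (2 * a + 3 * N + 6)) := by
      rw [pow_add 2 (a + 2 * N + 4 + 2 ^ (a + N + 2))]
      exact Nat.mul_le_mul hcoef hpow
    have h4 : 1 + 2 ^ (a + 2 * N + 4 + 2 ^ (a + N + 2) + 2 ^ (2 * a + 3 * N + 6)) ≤
        2 ^ (a + 2 * N + 4 + 2 ^ (a + N + 2) + 2 ^ (2 * a + 3 * N + 6) + 1) := by
      generalize a + 2 * N + 4 + 2 ^ (a + N + 2) + 2 ^ (2 * a + 3 * N + 6) = E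
      have h9 : 1 ≤ 2 ^ E := Nat.one_le_two_pow
      rw [pow_succ]
      omega
    have h5 : a + 2 * N + 4 + 2 ^ (a + N + 2) + 2 ^ (2 * a + 3 * N + 6) + 1 ≤
        2 ^ (2 * a + 3 * N + 8) := by
      have h6 : 2 ^ (2 * a + 3 * N + 8) = 4 * 2 ^ (2 * a + 3 * N + 6) := by
        rw [show 2 * a + 3 * N + 8 = (2 * a + 3 * N + 6) + 2 by ring, pow_add]; ring
      have h7 : 2 ^ (a + N + 2) ≤ 2 ^ (2 * a + 3 * N + 6) :=
        Nat.pow_le_pow_right (by norm_num) (by omega)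
      have h8 := h2 (2 * a + 3 * N + 6)
      omega
    calc _ ≤ 1 + 2 ^ (a + 2 * N + 4 + 2 ^ (a + N + 2) + 2 ^ (2 * a + 3 * N + 6)) :=
          Nat.add_le_add_left h3 _
      _ ≤ _ := h4
      _ ≤ _ := Nat.pow_le_pow_right (by norm_num) h5
  have hexp : q ^ N ≤ 2 ^ ((a + N + 3) * N) := by
    calc q ^ N ≤ (2 ^ (a + N + 3)) ^ N := Nat.pow_le_pow_left hqle N
      _ = _ := (pow_mul _ _ _).symm
  calc bndL N B = (1 + (q + 1 + N * q) * C * (q * C) ^ (q + q * N)) ^ (q ^ N) := rfl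
    _ ≤ (2 ^ 2 ^ (2 * a + 3 * N + 8)) ^ (q ^ N) := Nat.pow_le_pow_left hbase _
    _ ≤ (2 ^ 2 ^ (2 * a + 3 * N + 8)) ^ (2 ^ ((a + N + 3) * N)) :=
        Nat.pow_le_pow_right (by positivity) hexp
    _ = 2 ^ (2 ^ (2 * a + 3 * N + 8) * 2 ^ ((a + N + 3) * N)) := (pow_mul _ _ _).symm
    _ = 2 ^ 2 ^ Gx N a := by
      rw [← pow_add]
      congr 2
      unfold Gx
      ring

end Pool.Agent.R537.RN
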