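import Mathlib

/-!
# The geometric part of the reduction to the Hausdorff distance under isometries
-/

set_option autoImplicit false

namespace Pool.Agent.R537.RN

open Filter Topology Metric

/-- A decomposition of a Euclidean space into three orthogonal blocks. -/
structure Split (E EX EY EW : Type) [NormedAddCommGroup E] [InnerProductSpace ℝ E]
    [NormedAddCommGroup EX] [InnerProductSpace ℝ EX] [NormedAddCommGroup EY]
    [InnerProductSpace ℝ EY] [NormedAddCommGroup EW] [InnerProductSpace ℝ EW] where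
  X : E →ₗ[ℝ] EX
  Y : E →ₗ[ℝ] EY
  W : E →ₗ[ℝ] EW
  pt : EX → EY → EW → E
  X_mk : ∀ x y w, X (pt x y w) = x
  Y_mk : ∀ x y w, Y (pt x y w) = y
  W_mk : ∀ x y w, W (pt x y w) = w
  norm_sq : ∀ p, ‖p‖ ^ 2 = ‖X p‖ ^ 2 + ‖Y p‖ ^ 2 + ‖W p‖ ^ 2

section

variable {E EX EY EW : Type} [NormedAddCommGroup E] [InnerProductSpace ℝ E]
    [NormedAddCommGroup EX] [InnerProductSpace ℝ EX] [NormedAddCommGroup EY]
    [InnerProductSpace ℝ EY] [NormedAddCommGroup EW] [InnerProductSpace ℝ EW]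
    (s : Split E EX EY EW)

include s in
theorem Split.ext {p q : E} (h1 : s.X p = s.X q) (h2 : s.Y p = s.Y q) (h3 : s.W p = s.W q) :
    p = q := by
  have h := s.norm_sq (p - q)
  rw [map_sub, map_sub, map_sub, h1, h2, h3, sub_self, sub_self, sub_self, norm_zero,
    norm_zero, norm_zero] at h
  have h4 : ‖p - q‖ ^ 2 = 0 := by rw [h]; norm_num
  exact sub_eq_zero.1 (norm_eq_zero.1 (pow_eq_zero_iff two_ne_zero |>.1 h4))

theorem Split.norm_W (p : E) : ‖s.W p‖ ≤ ‖p‖ := by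
  refine abs_le_of_sq_le_sq' ?_ (norm_nonneg _) |>.2
  rw [s.norm_sq p]
  nlinarith [sq_nonneg ‖s.X p‖, sq_nonneg ‖s.Y p‖]

theorem Split.norm_X (p : E) : ‖s.X p‖ ≤ ‖p‖ := by
  refine abs_le_of_sq_le_sq' ?_ (norm_nonneg _) |>.2
  rw [s.norm_sq p]
  nlinarith [sq_nonneg ‖s.W p‖, sq_nonneg ‖s.Y p‖]

/-- The first set. -/
def SA (e : EW) (R : ℝ) : Set E :=
  {p | (s.X p = 0 ∧ s.W p = 0) ∨ s.W p = (2 * R - 2) • e ∨ s.W p = (100 * R) • e ∨
    s.W p = (-(300 * R)) • e}

/-- The second set. -/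
def SB (e : EW) (R : ℝ) (C : Set (EX × EY × EW)) : Set E :=
  {p | (s.X p, s.Y p, s.W p) ∈ C ∨ s.W p = (2 * R) • e ∨ ‖s.W p - (100 * R) • e‖ = R ∨
    ‖s.W p - (-(300 * R)) • e‖ = R}

theorem edist_le_of {p q : E} {R : ℝ} (hR : 0 ≤ R)
    (h : ‖s.X (p - q)‖ ^ 2 + ‖s.Y (p - q)‖ ^ 2 + ‖s.W (p - q)‖ ^ 2 ≤ R ^ 2) :
    edist p q ≤ ENNReal.ofReal R := by
  rw [edist_dist]
  apply ENNReal.ofReal_le_ofReal
  rw [dist_eq_norm]
  exact abs_le_of_sq_le_sq' (by rw [s.norm_sq]; exact h) hR |>.2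

/-- If the sentence is true, then a translation works. -/
theorem gh_fwd {e : EW} (he : ‖e‖ = 1) {R : ℝ} (hR : 4 ≤ R) {C : Set (EX × EY × EW)}
    (hC1 : ∀ c ∈ C, ‖c.2.2‖ = R) (hC2 : ∀ c ∈ C, ‖c.2.2 - (2 * R - 2) • e‖ ≤ R)
    (h : ∃ x, ∀ y, ∃ w, (x, y, w) ∈ C) :
    ∃ v : E, hausdorffEDist ((fun p => p + v) '' SA s e R) (SB s e R C) ≤ ENNReal.ofReal R := by
  obtain ⟨x, hx⟩ := h
  have hR0 : 0 ≤ R := by linarith
  have hsm : ∀ a b : ℝ, ‖a • e - b • e‖ = |a - b| := by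
    intro a b
    rw [← sub_smul, norm_smul, he, mul_one, Real.norm_eq_abs]
  refine ⟨s.pt x 0 0, hausdorffEDist_le_of_mem_edist ?_ ?_⟩
  · rintro _ ⟨p, hp, rfl⟩
    rcases hp with ⟨hp1, hp2⟩ | hp | hp | hp
    · obtain ⟨w, hw⟩ := hx (s.Y p)
      refine ⟨s.pt x (s.Y p) w, Or.inl ?_, ?_⟩
      · rw [s.X_mk, s.Y_mk, s.W_mk]; exact hw
      · apply edist_le_of s hR0
        simp only [map_sub, map_add, s.X_mk, s.Y_mk, s.W_mk, hp1, hp2]
        have := hC1 _ hw
        simp only at this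
        simp [this]
    · refine ⟨s.pt (s.X p + x) (s.Y p) ((2 * R) • e), Or.inr (Or.inl ?_), ?_⟩
      · rw [s.W_mk]
      · apply edist_le_of s hR0
        simp only [map_sub, map_add, s.X_mk, s.Y_mk, s.W_mk, hp, add_zero, sub_self, norm_zero,
          hsm]
        have : (2 * R - 2 - 2 * R) = -2 := by ring
        rw [this]
        norm_num
        nlinarith
    · refine ⟨s.pt (s.X p + x) (s.Y p) ((101 * R) • e), Or.inr (Or.inr (Or.inl ?_)), ?_⟩
      · rw [s.W_mk, hsm]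
        have : 101 * R - 100 * R = R := by ring
        rw [this, abs_of_nonneg hR0]
      · apply edist_le_of s hR0
        simp only [map_sub, map_add, s.X_mk, s.Y_mk, s.W_mk, hp, add_zero, sub_self, norm_zero,
          hsm]
        have : 100 * R - 101 * R = -R := by ring
        rw [this, abs_neg, abs_of_nonneg hR0]
        norm_num
    · refine ⟨s.pt (s.X p + x) (s.Y p) ((-(299 * R)) • e), Or.inr (Or.inr (Or.inr ?_)), ?_⟩
      · rw [s.W_mk, hsm]
        have : -(299 * R) - -(300 * R) = R := by ring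
        rw [this, abs_of_nonneg hR0]
      · apply edist_le_of s hR0
        simp only [map_sub, map_add, s.X_mk, s.Y_mk, s.W_mk, hp, add_zero, sub_self, norm_zero,
          hsm]
        have : -(300 * R) - -(299 * R) = -R := by ring
        rw [this, abs_neg, abs_of_nonneg hR0]
        norm_num
  · intro b hb
    have key : ∀ w : EW, ‖s.W b - w‖ ≤ R → s.pt (s.X b - x) (s.Y b) w ∈ SA s e R →
        ∃ y ∈ (fun p => p + s.pt x 0 0) '' SA s e R, edist b y ≤ ENNReal.ofReal R := by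
      intro w hw hm
      refine ⟨_, ⟨_, hm, rfl⟩, ?_⟩
      apply edist_le_of s hR0
      simp only [map_sub, map_add, s.X_mk, s.Y_mk, s.W_mk]
      simp only [sub_add_cancel, sub_self, norm_zero, add_zero]
      have := norm_nonneg (s.W b - w)
      nlinarith
    rcases hb with hb | hb | hb | hb
    · refine key ((2 * R - 2) • e) (hC2 _ hb) (Or.inr (Or.inl ?_))
      rw [s.W_mk]
    · refine key ((2 * R - 2) • e) ?_ (Or.inr (Or.inl ?_))
      · rw [hb, hsm]
        have : 2 * R - (2 * R - 2) = 2 := by ring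
        rw [this]
        norm_num
        linarith
      · rw [s.W_mk]
    · refine key ((100 * R) • e) hb.le (Or.inr (Or.inr (Or.inl ?_)))
      rw [s.W_mk]
    · refine key ((-(300 * R)) • e) hb.le (Or.inr (Or.inr (Or.inr ?_)))
      rw [s.W_mk]

end

end Pool.Agent.R537.RN
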