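import Pool.Agent.R537.RN.Lvl

/-!
# A Łojasiewicz inequality and a gap theorem for functions of one variable satisfying a
polynomial relation
-/

set_option autoImplicit false

namespace Pool.Agent.R537.RN

open Finset Filter Topology Pool.Agent.H612

/-- The trivial norm on the real numbers. -/
noncomputable def trN : RNorm ℝ where
  ν := fun c => if c = 0 then 0 else 1
  zero := by simp
  one := by simp
  neg := fun x => by simp
  add := fun x y => by
    by_cases hx : x = 0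
    · simp [hx]
    · simp only [hx, if_false]
      split_ifs <;> omega
  mul := fun x y => by
    by_cases hx : x = 0
    · simp [hx]
    · by_cases hy : y = 0
      · simp [hy]
      · simp [hx, hy]

theorem trN_pos : ∀ c : ℝ, c ≠ 0 → 1 ≤ trN.ν c := fun c hc => by simp [trN, hc]

theorem int_pos : ∀ c : ℤ, c ≠ 0 → 1 ≤ RNorm.int.ν c := fun c hc => Int.natAbs_pos.2 hc

variable {K : Type} [CommRing K]

/-- A polynomial in one variable as a univariate polynomial. -/
noncomputable def uni (c : MvPolynomial (Fin 1) K) : Polynomial K :=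
  c.eval₂ Polynomial.C (fun _ => Polynomial.X)

theorem uni_eq (c : MvPolynomial (Fin 1) K) :
    uni c = ∑ d ∈ c.support, Polynomial.monomial (d 0) (c.coeff d) := by
  unfold uni
  rw [MvPolynomial.eval₂_eq']
  refine Finset.sum_congr rfl fun d _ => ?_
  rw [Fin.prod_univ_one, Polynomial.C_mul_X_pow_eq_monomial]

theorem uni_coeff (c : MvPolynomial (Fin 1) K) (d : Fin 1 →₀ ℕ) :
    (uni c).coeff (d 0) = c.coeff d := by
  classical
  rw [uni_eq, Polynomial.finsetSum_coeff]
  simp only [Polynomial.coeff_monomial]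
  have h1 : ∀ e ∈ c.support, (if e 0 = d 0 then MvPolynomial.coeff e c else 0) =
      if e = d then MvPolynomial.coeff e c else 0 := by
    intro e _
    have : e 0 = d 0 ↔ e = d := by
      constructor
      · intro h
        refine Finsupp.ext fun i => ?_
        rw [Subsingleton.elim i 0, h]
      · rintro rfl
        rfl
    simp only [this]
  rw [Finset.sum_congr rfl h1, Finset.sum_ite_eq']
  split_ifs with h
  · rfl
  · exact (MvPolynomial.notMem_support_iff.1 h).symm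

theorem uni_ne_zero {c : MvPolynomial (Fin 1) K} (hc : c ≠ 0) : uni c ≠ 0 := by
  obtain ⟨d, hd⟩ := MvPolynomial.ne_zero_iff.1 hc
  intro h
  apply hd
  rw [← uni_coeff, h, Polynomial.coeff_zero]

theorem uni_eval (φ : K →+* ℝ) (c : MvPolynomial (Fin 1) K) (s : ℝ) :
    (uni c).eval₂ φ s = c.eval₂ φ (fun _ => s) := by
  rw [uni_eq, Polynomial.eval₂_finsetSum, MvPolynomial.eval₂_eq']
  refine Finset.sum_congr rfl fun d _ => ?_
  rw [Fin.prod_univ_one, Polynomial.eval₂_monomial]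

theorem uni_ν (nr : RNorm K) (c : MvPolynomial (Fin 1) K) :
    nr.poly.ν (uni c) ≤ (wm nr 1).ν c := by
  rw [uni_eq]
  refine (nr.poly.sum _ _).trans ?_
  change _ ≤ wν nr c
  unfold wν
  refine Finset.sum_le_sum fun d _ => ?_
  rw [RNorm.poly_ν, nr.pν_monomial]
  exact Nat.le_mul_of_pos_right _ (by positivity)

theorem uni_deg (nr : RNorm K) (hpos : ∀ c : K, c ≠ 0 → 1 ≤ nr.ν c)
    (c : MvPolynomial (Fin 1) K) {D : ℕ} (h : (wm nr 1).ν c < 2 ^ (D + 1)) :
    (uni c).natDegree ≤ D := by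
  rw [uni_eq]
  refine Polynomial.natDegree_sum_le_of_forall_le _ _ fun d hd => ?_
  refine (Polynomial.natDegree_monomial_le _).trans ?_
  have h1 := two_pow_le_wν nr hpos hd
  rw [Fin.sum_univ_one] at h1
  have h3 : 2 ^ (d 0) < 2 ^ (D + 1) := lt_of_le_of_lt h1 h
  have := (Nat.pow_lt_pow_iff_right (by norm_num : 1 < 2)).1 h3
  omega

/-- A Łojasiewicz inequality. -/
theorem loj (P : Polynomial (MvPolynomial (Fin 1) ℝ)) (hP : P ≠ 0) (D : ℕ)
    (hD : (wm trN 1).poly.ν P < 2 ^ (D + 1)) (b : ℝ → ℝ) (hb : Continuous b)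
    (hpos : ∀ s, 0 < s → s ≤ 1 → 0 < b s)
    (hrel : ∀ s : ℝ, P.eval₂ ((Lvl.real.ext 1).φ ((), fun _ => s)) (b s) = 0) :
    ∃ c : ℝ, 0 < c ∧ ∀ s, 0 ≤ s → s ≤ 1 → c * s ^ D ≤ b s := by
  obtain ⟨r, P', hfac, hc0, hcr⟩ := exists_trailing P hP
  have hfdeg : (uni (P'.coeff 0)).natDegree ≤ D := by
    refine uni_deg trN trN_pos _ ?_
    rw [hcr]
    exact lt_of_le_of_lt ((wm trN 1).ν_coeff_le P r) hD
  have hf0 : uni (P'.coeff 0) ≠ 0 := uni_ne_zero hc0
  -- the quotient
  obtain ⟨R, hR⟩ : ∃ R : ℝ → ℝ, ∀ s, R s =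
      (P'.divX).eval₂ ((Lvl.real.ext 1).φ ((), fun _ => s)) (b s) := ⟨_, fun s => rfl⟩
  have hRc : Continuous R := by
    have h1 : Continuous fun q : ℝ × ℝ =>
        (P'.divX).eval₂ ((Lvl.real.ext 1).φ ((), fun _ => q.1)) q.2 := by
      simp_rw [Polynomial.eval₂_eq_sum, Polynomial.sum_def]
      refine continuous_finsetSum _ fun j _ => ?_
      refine Continuous.mul ?_ (continuous_snd.pow j)
      exact ((Lvl.real.ext 1).cont _).comp (by fun_prop)
    have h2 : R = fun s => (fun q : ℝ × ℝ =>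
        (P'.divX).eval₂ ((Lvl.real.ext 1).φ ((), fun _ => q.1)) q.2) (s, b s) := by
      funext s
      rw [hR]
    rw [h2]
    exact h1.comp (by fun_prop)
  have hmain : ∀ s, 0 < s → s ≤ 1 → (uni (P'.coeff 0)).eval s = - (R s * b s) := by
    intro s hs0 hs1
    have h1 := hrel s
    rw [hfac, Polynomial.eval₂_mul, Polynomial.eval₂_pow, Polynomial.eval₂_X] at h1
    have h2 : P'.eval₂ ((Lvl.real.ext 1).φ ((), fun _ => s)) (b s) = 0 :=
      (mul_eq_zero.1 h1).resolve_left (pow_ne_zero _ (hpos s hs0 hs1).ne')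
    rw [← Polynomial.divX_mul_X_add P', Polynomial.eval₂_add, Polynomial.eval₂_mul,
      Polynomial.eval₂_X, Polynomial.eval₂_C, ← hR] at h2
    have h3 : ((Lvl.real.ext 1).φ ((), fun _ => s)) (P'.coeff 0) =
        (uni (P'.coeff 0)).eval s := by
      have h4 := uni_eval (RingHom.id ℝ) (P'.coeff 0) s
      rw [Polynomial.eval₂_id] at h4
      rw [h4]
      rfl
    rw [h3] at h2
    linarith
  obtain ⟨M, hM⟩ : ∃ M : ℝ, ∀ s ∈ Set.Icc (0:ℝ) 1, |R s| ≤ M := by
    obtain ⟨x, -, hx⟩ := isCompact_Icc.exists_isMaxOn (Set.nonempty_Icc.2 zero_le_one)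
      (hRc.abs.continuousOn (s := Set.Icc (0:ℝ) 1))
    exact ⟨|R x|, fun s hs => hx hs⟩
  have hM0 : 0 ≤ M := (abs_nonneg _).trans (hM 0 ⟨le_refl _, zero_le_one⟩)
  obtain ⟨k, g, hg, hg0, hgk⟩ := exists_trailing _ hf0
  have hk : k ≤ D := by
    refine le_trans (Polynomial.le_natDegree_of_ne_zero ?_) hfdeg
    rw [← hgk]
    exact hg0
  -- a lower bound for the maximum
  have hcm : Continuous fun s => max (|g.eval s| / (M + 1)) (b s) := by
    have h1 : Continuous fun s => g.eval s := g.continuous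
    fun_prop
  obtain ⟨x, hx, hxm⟩ := isCompact_Icc.exists_isMinOn (Set.nonempty_Icc.2 zero_le_one)
    (hcm.continuousOn (s := Set.Icc (0:ℝ) 1))
  have hm : 0 < max (|g.eval x| / (M + 1)) (b x) := by
    rcases eq_or_lt_of_le hx.1 with h0 | h0
    · refine lt_max_of_lt_left ?_
      rw [← h0, ← Polynomial.coeff_zero_eq_eval_zero]
      have := abs_pos.2 hg0
      positivity
    · exact lt_max_of_lt_right (hpos x h0 hx.2)
  refine ⟨_, hm, ?_⟩
  have hmain2 : ∀ s, 0 < s → s ≤ 1 →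
      max (|g.eval x| / (M + 1)) (b x) * s ^ D ≤ b s := by
    intro s hs0 hs1
    have h1 := hxm (⟨hs0.le, hs1⟩ : s ∈ Set.Icc (0:ℝ) 1)
    simp only [Set.mem_ofPred_eq] at h1
    have h2 : s ^ D ≤ s ^ k := pow_le_pow_of_le_one hs0.le hs1 hk
    have h2' : s ^ k ≤ 1 := pow_le_one₀ hs0.le hs1
    have hbs := hpos s hs0 hs1
    have h3 : s ^ k * (|g.eval s| / (M + 1)) ≤ b s := by
      have h4 := hmain s hs0 hs1
      rw [hg, Polynomial.eval_mul, Polynomial.eval_pow, Polynomial.eval_X] at h4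
      have h5 : s ^ k * |g.eval s| = |R s| * b s := by
        have := congrArg abs h4
        rw [abs_mul, abs_neg, abs_mul, abs_of_pos hbs, abs_of_pos (pow_pos hs0 k)] at this
        exact this
      have h6 : |R s| ≤ M := hM s ⟨hs0.le, hs1⟩
      rw [← mul_div_assoc, div_le_iff₀ (by linarith), h5]
      nlinarith
    have hmn := hm.le
    set m := max (|g.eval x| / (M + 1)) (b x) with hmdef
    calc m * s ^ D ≤ m * s ^ k := mul_le_mul_of_nonneg_left h2 hmn
      _ ≤ b s := by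
        rcases le_total (|g.eval s| / (M + 1)) (b s) with h7 | h7
        · have h8 : m ≤ b s := h1.trans (max_eq_right h7).le
          nlinarith [pow_pos hs0 k]
        · have h8 : m ≤ |g.eval s| / (M + 1) := h1.trans (max_eq_left h7).le
          calc m * s ^ k ≤ |g.eval s| / (M + 1) * s ^ k :=
                mul_le_mul_of_nonneg_right h8 (pow_pos hs0 k).le
            _ = s ^ k * (|g.eval s| / (M + 1)) := mul_comm _ _
            _ ≤ b s := h3
  intro s hs0 hs1
  rcases eq_or_lt_of_le hs0 with h0 | h0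
  · -- the limit at `0`
    have hcl : IsClosed {s : ℝ | max (|g.eval x| / (M + 1)) (b x) * s ^ D ≤ b s} :=
      isClosed_le (by fun_prop) hb
    have hsub : Set.Ioc (0:ℝ) 1 ⊆ {s : ℝ | max (|g.eval x| / (M + 1)) (b x) * s ^ D ≤ b s} :=
      fun s hs => hmain2 s hs.1 hs.2
    have h9 := hcl.closure_subset_iff.2 hsub
    rw [closure_Ioc (by norm_num)] at h9
    exact h9 ⟨hs0, hs1⟩
  · exact hmain2 s h0 hs1

/-- A lower bound for the positive roots of an integer polynomial. -/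
theorem root_bound (f : Polynomial ℤ) (hf : f ≠ 0) (B : ℕ) (hB : RNorm.int.poly.ν f ≤ B) (s : ℝ)
    (hs0 : 0 < s) (hs1 : s ≤ 1) (hs : f.eval₂ (Int.castRingHom ℝ) s = 0) : 1 ≤ B * s := by
  classical
  obtain ⟨k, g, hg, hg0, hgk⟩ := exists_trailing f hf
  have hkm : k ∈ f.support := by
    rw [Polynomial.mem_support_iff, ← hgk]
    exact hg0
  have hlow : ∀ i ∈ f.support, i ≠ k → k < i := by
    intro i hi hik
    by_contra h
    have h1 : i < k := lt_of_le_of_ne (not_lt.1 h) hik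
    apply Polynomial.mem_support_iff.1 hi
    rw [hg]
    rw [Polynomial.coeff_X_pow_mul', if_neg (by omega)]
  rw [Polynomial.eval₂_eq_sum, Polynomial.sum_def, ← Finset.add_sum_erase _ _ hkm] at hs
  have h2 : |(f.coeff k : ℝ)| * s ^ k ≤ ∑ i ∈ f.support.erase k, |(f.coeff i : ℝ)| * s ^ (k + 1) := by
    have h3 : (f.coeff k : ℝ) * s ^ k = - ∑ i ∈ f.support.erase k, (f.coeff i : ℝ) * s ^ i := by
      simp only [eq_intCast] at hs
      linarith
    have h4 : |(f.coeff k : ℝ)| * s ^ k = |(f.coeff k : ℝ) * s ^ k| := by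
      rw [abs_mul, abs_of_pos (pow_pos hs0 k)]
    rw [h4, h3, abs_neg]
    refine (Finset.abs_sum_le_sum_abs _ _).trans (Finset.sum_le_sum fun i hi => ?_)
    rw [abs_mul, abs_of_pos (pow_pos hs0 i)]
    have h5 := hlow i (Finset.mem_of_mem_erase hi) (Finset.ne_of_mem_erase hi)
    exact mul_le_mul_of_nonneg_left (pow_le_pow_of_le_one hs0.le hs1 (by omega)) (abs_nonneg _)
  rw [← Finset.sum_mul] at h2
  have h6 : ∑ i ∈ f.support.erase k, |(f.coeff i : ℝ)| ≤ B := by
    have h7 : ∑ i ∈ f.support.erase k, |(f.coeff i : ℝ)| ≤ ∑ i ∈ f.support, |(f.coeff i : ℝ)| :=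
      Finset.sum_le_sum_of_subset_of_nonneg (Finset.erase_subset _ _) fun _ _ _ => abs_nonneg _
    refine h7.trans ?_
    have h8 : (∑ i ∈ f.support, (f.coeff i).natAbs : ℕ) ≤ B := hB
    have h9 : ((∑ i ∈ f.support, (f.coeff i).natAbs : ℕ) : ℝ) ≤ B := by exact_mod_cast h8
    refine le_trans (le_of_eq ?_) h9
    push_cast
    refine Finset.sum_congr rfl fun i _ => ?_
    rw [Nat.cast_natAbs]
    push_cast
    rfl
  have h10 : (1 : ℝ) ≤ |(f.coeff k : ℝ)| := by
    have h11 : f.coeff k ≠ 0 := Polynomial.mem_support_iff.1 hkm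
    have h12 : 1 ≤ |f.coeff k| := Int.one_le_abs h11
    exact_mod_cast h12
  have h13 : 0 < s ^ k := pow_pos hs0 k
  have h14 : s ^ k ≤ (B * s) * s ^ k := by
    calc s ^ k ≤ |(f.coeff k : ℝ)| * s ^ k := by nlinarith
      _ ≤ _ := h2
      _ ≤ B * s ^ (k + 1) := mul_le_mul_of_nonneg_right h6 (by positivity)
      _ = _ := by ring
  exact le_of_mul_le_mul_right (by linarith) h13

/-- A gap theorem. -/
theorem gap_int (P : Polynomial (MvPolynomial (Fin 1) ℤ)) (hP : P ≠ 0) (B : ℕ)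
    (hB : (wm RNorm.int 1).poly.ν P ≤ B) (b : ℝ → ℝ) (hb : Continuous b)
    (hrel : ∀ s : ℝ, P.eval₂ ((Lvl.int.ext 1).φ ((), fun _ => s)) (b s) = 0) (s₁ : ℝ)
    (hs0 : 0 < s₁) (hs1 : s₁ ≤ 1) (hs : b s₁ ≤ 0) : ∃ s : ℝ, 0 < s ∧ s ≤ 1 ∧ 1 ≤ B * s ∧ b s ≤ 0 := by
  obtain ⟨r, P', hfac, hc0, hcr⟩ := exists_trailing P hP
  have hB1 : 1 ≤ B := by
    refine le_trans ?_ (((wm RNorm.int 1).ν_coeff_le P r).trans hB)
    rw [← hcr]
    exact wm_pos RNorm.int int_pos _ hc0
  by_cases h1 : b 1 ≤ 0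
  · refine ⟨1, one_pos, le_refl _, ?_, h1⟩
    rw [mul_one]
    exact_mod_cast hB1
  · rw [not_le] at h1
    have hcomp : IsCompact (Set.Icc s₁ 1 ∩ {s | b s ≤ 0}) :=
      isCompact_Icc.inter_right (isClosed_le hb continuous_const)
    obtain ⟨t, ⟨⟨ht1, ht2⟩, ht3⟩, ht4⟩ := hcomp.exists_isGreatest ⟨s₁, ⟨⟨le_refl _, hs1⟩, hs⟩⟩
    have ht0 : 0 < t := lt_of_lt_of_le hs0 ht1
    simp only [Set.mem_ofPred_eq] at ht3
    have htlt : t < 1 := lt_of_le_of_ne ht2 (by rintro rfl; linarith)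
    have hpos : ∀ s ∈ Set.Ioc t 1, 0 < b s := by
      intro s hs'
      by_contra h
      have := ht4 ⟨⟨ht1.trans hs'.1.le, hs'.2⟩, not_lt.1 h⟩
      linarith [hs'.1]
    have hcl2 : t ∈ closure (Set.Ioc t 1) := by
      rw [closure_Ioc htlt.ne]
      exact ⟨le_refl _, htlt.le⟩
    have hbt : b t = 0 := by
      refine le_antisymm ht3 ?_
      have hcl : IsClosed {s : ℝ | 0 ≤ b s} := isClosed_le continuous_const hb
      exact hcl.closure_subset_iff.2 (fun s hs' => (hpos s hs').le) hcl2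
    have hPt : P'.eval₂ ((Lvl.int.ext 1).φ ((), fun _ => t)) (b t) = 0 := by
      have hc : Continuous fun s : ℝ => P'.eval₂ ((Lvl.int.ext 1).φ ((), fun _ => s)) (b s) := by
        simp_rw [Polynomial.eval₂_eq_sum, Polynomial.sum_def]
        refine continuous_finsetSum _ fun j _ => ?_
        refine Continuous.mul ?_ (hb.pow j)
        exact ((Lvl.int.ext 1).cont _).comp (by fun_prop)
      have hcl : IsClosed {s : ℝ | P'.eval₂ ((Lvl.int.ext 1).φ ((), fun _ => s)) (b s) = 0} :=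
        isClosed_eq hc continuous_const
      refine hcl.closure_subset_iff.2 (fun s hs' => ?_) hcl2
      have h2 := hrel s
      rw [hfac, Polynomial.eval₂_mul, Polynomial.eval₂_pow, Polynomial.eval₂_X] at h2
      exact (mul_eq_zero.1 h2).resolve_left (pow_ne_zero _ (hpos s hs').ne')
    rw [hbt, Polynomial.eval₂_at_zero] at hPt
    refine ⟨t, ht0, ht2, ?_, ht3⟩
    refine root_bound (uni (P'.coeff 0)) (uni_ne_zero hc0) B ?_ t ht0 ht2 ?_
    · refine (uni_ν RNorm.int _).trans ?_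
      rw [hcr]
      exact ((wm RNorm.int 1).ν_coeff_le P r).trans hB
    · rw [uni_eval]
      exact hPt

end Pool.Agent.R537.RN
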