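import Pool.Agent.R537.RN.BlockMax

/-!
# Iterated block maxima of functions satisfying polynomial relations
-/

set_option autoImplicit false

namespace Pool.Agent.R537.RN

open Finset Filter Topology Pool.Agent.H612

/-- A ring of coefficients all of whose elements are continuous functions of a parameter, the
nonzero ones being nonzero on a dense set. -/
structure Lvl (K : Type) [CommRing K] (S : Type) [TopologicalSpace S] where
  /-- The evaluation at a parameter. -/
  φ : S → K →+* ℝ
  cont : ∀ c : K, Continuous fun s => φ s c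
  gen : ∀ c : K, c ≠ 0 → Dense {s | φ s c ≠ 0}

variable {K : Type} [CommRing K] {S : Type} [TopologicalSpace S]

/-- Adding a block of variables. -/
noncomputable def Lvl.ext (L : Lvl K S) (N : ℕ) :
    Lvl (MvPolynomial (Fin N) K) (S × (Fin N → ℝ)) where
  φ := fun s => MvPolynomial.eval₂Hom (L.φ s.1) s.2
  cont := fun p => by
    simp_rw [MvPolynomial.coe_eval₂Hom, MvPolynomial.eval₂_eq]
    refine continuous_finsetSum _ fun d _ => ?_
    refine Continuous.mul ((L.cont _).comp continuous_fst) ?_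
    refine continuous_finsetProd _ fun i _ => ?_
    exact ((continuous_apply i).comp continuous_snd).pow _
  gen := fun p hp => by
    rw [dense_iff_inter_open]
    rintro W hW ⟨⟨s0, x0⟩, hs0⟩
    obtain ⟨U, V, hU, hV, hsU, hxV, hUV⟩ := isOpen_prod_iff.1 hW s0 x0 hs0
    obtain ⟨d, hd⟩ : ∃ d, p.coeff d ≠ 0 := MvPolynomial.ne_zero_iff.1 hp
    obtain ⟨s, hsU', hs⟩ := (L.gen _ hd).inter_open_nonempty U hU ⟨s0, hsU⟩
    by_contra hcon
    have hz : ∀ x ∈ V, MvPolynomial.eval x (MvPolynomial.map (L.φ s) p) = 0 := by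
      intro x hx
      by_contra h1
      apply hcon
      refine ⟨(s, x), hUV ⟨hsU', hx⟩, ?_⟩
      rw [MvPolynomial.eval_map] at h1
      exact h1
    have hall := eval_eq_zero_of_open (MvPolynomial.map (L.φ s) p) hV ⟨x0, hxV⟩ hz
    have h0 : MvPolynomial.map (L.φ s) p = 0 := MvPolynomial.funext (by simpa using hall)
    apply hs
    have h1 := congrArg (fun q => MvPolynomial.coeff d q) h0
    simpa [MvPolynomial.coeff_map] using h1

/-- The integers. -/
def Lvl.int : Lvl ℤ Unit where
  φ := fun _ => Int.castRingHom ℝ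
  cont := fun _ => continuous_const
  gen := fun c hc => by
    have : {s : Unit | (Int.castRingHom ℝ) c ≠ 0} = Set.univ := by
      ext s
      simpa using hc
    rw [this]
    exact dense_univ

/-- The real numbers. -/
def Lvl.real : Lvl ℝ Unit where
  φ := fun _ => RingHom.id ℝ
  cont := fun _ => continuous_const
  gen := fun c hc => by
    have : {s : Unit | (RingHom.id ℝ) c ≠ 0} = Set.univ := by
      ext s
      simpa using hc
    rw [this]
    exact dense_univ

/-- The maximum over the block. -/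
noncomputable def bmax {N : ℕ} (h : S × (Fin N → ℝ) → ℝ) (s : S) : ℝ :=
  sSup ((fun x => h (s, x)) '' cube N)

theorem cube_nonempty (N : ℕ) : (cube N).Nonempty := ⟨0, zero_mem_cube N⟩

theorem isGreatest_bmax {N : ℕ} {h : S × (Fin N → ℝ) → ℝ} (hc : Continuous h) (s : S) :
    IsGreatest ((fun x => h (s, x)) '' cube N) (bmax h s) :=
  ((isCompact_cube N).image (by fun_prop)).isGreatest_sSup ((cube_nonempty N).image _)

theorem continuous_bmax {N : ℕ} {h : S × (Fin N → ℝ) → ℝ} (hc : Continuous h) :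
    Continuous (bmax h) :=
  (isCompact_cube N).continuous_sSup (f := fun s x => h (s, x)) hc

theorem le_bmax {N : ℕ} {h : S × (Fin N → ℝ) → ℝ} (hc : Continuous h) (s : S) {x : Fin N → ℝ}
    (hx : x ∈ cube N) : h (s, x) ≤ bmax h s :=
  (isGreatest_bmax hc s).2 ⟨x, hx, rfl⟩

theorem exists_bmax {N : ℕ} {h : S × (Fin N → ℝ) → ℝ} (hc : Continuous h) (s : S) :
    ∃ x ∈ cube N, h (s, x) = bmax h s := (isGreatest_bmax hc s).1

theorem Lvl.cont_eval (L : Lvl K S) (Q : Polynomial K) {v : S → ℝ} (hv : Continuous v) :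
    Continuous fun s => Q.eval₂ (L.φ s) (v s) := by
  simp_rw [Polynomial.eval₂_eq_sum, Polynomial.sum_def]
  refine continuous_finsetSum _ fun j _ => ?_
  exact (L.cont _).mul (hv.pow j)

/-- The maximum over a block satisfies a bounded polynomial relation. -/
theorem Lvl.step [Nontrivial K] (L : Lvl K S) (nr : RNorm K)
    (hpos : ∀ c : K, c ≠ 0 → 1 ≤ nr.ν c)
    {N : ℕ} (P : Polynomial (MvPolynomial (Fin N) K)) (hP : P ≠ 0) (B : ℕ)
    (hB : (wm nr N).poly.ν P ≤ B) (hB1 : 1 ≤ B)
    (h : S × (Fin N → ℝ) → ℝ) (hc : Continuous h)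
    (hrel : ∀ s, P.eval₂ ((L.ext N).φ s) (h s) = 0) :
    ∃ Q : Polynomial K, Q ≠ 0 ∧ nr.poly.ν Q ≤ bndL N B ∧
      ∀ s, Q.eval₂ (L.φ s) (bmax h s) = 0 := by
  obtain ⟨Q, hQ0, hQν, hQ⟩ := block_max nr hpos P B hB hB1
  refine ⟨Q, hQ0, hQν, ?_⟩
  obtain ⟨j, hj⟩ : ∃ j, P.coeff j ≠ 0 := by
    by_contra hcon
    push Not at hcon
    exact hP (Polynomial.ext (by simpa using hcon))
  obtain ⟨d, hd⟩ : ∃ d, (P.coeff j).coeff d ≠ 0 := MvPolynomial.ne_zero_iff.1 hj
  have hdense := L.gen _ hd
  have hz : ∀ s ∈ {s | L.φ s ((P.coeff j).coeff d) ≠ 0}, Q.eval₂ (L.φ s) (bmax h s) = 0 := by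
    intro s hs
    refine hQ (L.φ s) (fun x => h (s, x)) (bmax h s) (by fun_prop) (fun x _ => hrel (s, x)) ?_
      (isGreatest_bmax hc s)
    by_contra hcon
    push Not at hcon
    apply hs
    -- all the values vanish
    have h1 : ∀ x : Fin N → ℝ, P.map (MvPolynomial.eval₂Hom (L.φ s) x) = 0 := by
      intro x
      apply Polynomial.funext
      intro t
      rw [← Polynomial.eval₂_eq_eval_map, Polynomial.eval_zero]
      exact hcon x t
    have h2 : ∀ x : Fin N → ℝ, MvPolynomial.eval x (MvPolynomial.map (L.φ s) (P.coeff j)) = 0 := by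
      intro x
      have h3 := congrArg (fun q => Polynomial.coeff q j) (h1 x)
      simp only [Polynomial.coeff_map, Polynomial.coeff_zero] at h3
      rw [MvPolynomial.eval_map]
      exact h3
    have h0 : MvPolynomial.map (L.φ s) (P.coeff j) = 0 := MvPolynomial.funext (by simpa using h2)
    have h4 := congrArg (fun q => MvPolynomial.coeff d q) h0
    simpa [MvPolynomial.coeff_map] using h4
  have hcl : IsClosed {s | Q.eval₂ (L.φ s) (bmax h s) = 0} :=
    isClosed_eq (L.cont_eval Q (continuous_bmax hc)) continuous_const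
  intro s
  have h5 : s ∈ closure {s | Q.eval₂ (L.φ s) (bmax h s) = 0} := (hdense.mono hz) s
  rwa [hcl.closure_eq] at h5

theorem wm_pos (nr : RNorm K) (hpos : ∀ c : K, c ≠ 0 → 1 ≤ nr.ν c) {N : ℕ}
    (c : MvPolynomial (Fin N) K) (hc : c ≠ 0) : 1 ≤ (wm nr N).ν c := by
  obtain ⟨d, hd⟩ : ∃ d, c.coeff d ≠ 0 := MvPolynomial.ne_zero_iff.1 hc
  exact le_trans (Nat.one_le_two_pow) (two_pow_le_wν nr hpos (MvPolynomial.mem_support_iff.2 hd))

/-- Changing the sign of the value. -/
noncomputable def flip (P : Polynomial K) : Polynomial K :=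
  P.sum fun i c => Polynomial.monomial i ((-1) ^ i * c)

theorem flip_eval (φ : K →+* ℝ) (P : Polynomial K) (t : ℝ) :
    (flip P).eval₂ φ t = P.eval₂ φ (-t) := by
  unfold flip
  rw [Polynomial.sum_def, Polynomial.eval₂_finsetSum, Polynomial.eval₂_eq_sum, Polynomial.sum_def]
  refine Finset.sum_congr rfl fun i _ => ?_
  rw [Polynomial.eval₂_monomial, map_mul, map_pow, map_neg, map_one, neg_pow t]
  ring

theorem flip_coeff (P : Polynomial K) (i : ℕ) : (flip P).coeff i = (-1) ^ i * P.coeff i := by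
  classical
  unfold flip
  rw [Polynomial.sum_def, Polynomial.finsetSum_coeff]
  simp only [Polynomial.coeff_monomial]
  rw [Finset.sum_ite_eq']
  split_ifs with h
  · rfl
  · rw [Polynomial.notMem_support_iff.1 h, mul_zero]

theorem ν_negpow (nr : RNorm K) (i : ℕ) (c : K) : nr.ν ((-1) ^ i * c) ≤ nr.ν c := by
  rcases neg_one_pow_eq_or K i with h | h
  · rw [h, one_mul]
  · rw [h, neg_one_mul]; exact nr.neg c

theorem flip_ν (nr : RNorm K) (P : Polynomial K) : nr.poly.ν (flip P) ≤ nr.poly.ν P := by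
  rw [RNorm.poly_ν, RNorm.poly_ν]
  have hs : (flip P).support ⊆ P.support := by
    intro i hi
    rw [Polynomial.mem_support_iff, flip_coeff] at hi
    rw [Polynomial.mem_support_iff]
    intro h
    apply hi
    rw [h, mul_zero]
  rw [nr.pν_eq_of_subset hs, RNorm.pν]
  refine Finset.sum_le_sum fun i _ => ?_
  rw [flip_coeff]
  exact ν_negpow nr i _

theorem flip_ne_zero (P : Polynomial K) (hP : P ≠ 0) : flip P ≠ 0 := by
  obtain ⟨j, hj⟩ : ∃ j, P.coeff j ≠ 0 := by
    by_contra hcon
    push Not at hcon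
    exact hP (Polynomial.ext (by simpa using hcon))
  intro h0
  apply hj
  have h1 := flip_coeff P j
  rw [h0, Polynomial.coeff_zero] at h1
  rcases neg_one_pow_eq_or K j with h | h
  · rw [h, one_mul] at h1; exact h1.symm
  · rw [h, neg_one_mul] at h1; exact neg_eq_zero.1 h1.symm

end Pool.Agent.R537.RN
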