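import Pool.Agent.R537.RN.Crit
import Pool.Agent.H612.Gap

/-!
# The supremum of a polynomial on a bounded open set on whose boundary it vanishes
-/

set_option autoImplicit false

namespace Pool.Agent.R537.RN

open Finset Filter Topology Pool.Agent.H612

variable {K : Type} [CommRing K] {N : ℕ}

/-- The sum of the powers. -/
def Sp (p : ℕ) (z : Fin N → ℝ) : ℝ := ∑ i, z i ^ p

theorem Sp_nonneg {p : ℕ} (hp : Even p) (z : Fin N → ℝ) : 0 ≤ Sp p z :=
  Finset.sum_nonneg fun i _ => hp.pow_nonneg _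

theorem Sp_cont (p : ℕ) : Continuous (Sp p : (Fin N → ℝ) → ℝ) := by
  unfold Sp; fun_prop

theorem Sp_deriv (p : ℕ) (z : Fin N → ℝ) (i : Fin N) :
    HasDerivAt (fun t : ℝ => Sp (p + 1) (Function.update z i t)) ((p + 1 : ℝ) * z i ^ p) (z i) := by
  classical
  have h1 : ∀ t : ℝ, Sp (p + 1) (Function.update z i t) =
      t ^ (p + 1) + ∑ j ∈ univ.erase i, z j ^ (p + 1) := by
    intro t
    unfold Sp
    rw [← Finset.add_sum_erase univ _ (mem_univ i), Function.update_self]
    congr 1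
    apply Finset.sum_congr rfl
    intro j hj
    rw [Function.update_of_ne (Finset.ne_of_mem_erase hj)]
  have h2 : (fun t : ℝ => Sp (p + 1) (Function.update z i t)) =
      fun t : ℝ => t ^ (p + 1) + ∑ j ∈ univ.erase i, z j ^ (p + 1) := funext h1
  rw [h2]
  have h3 := (hasDerivAt_pow (p + 1) (z i)).add_const (∑ j ∈ univ.erase i, z j ^ (p + 1))
  simpa using h3

/-- The bound on the norm. -/
def bndR (N q C : ℕ) : ℕ := (1 + (q + 1 + N * q) * C * (q * C) ^ (q + q * N)) ^ (q ^ N)

/-- The equations of the critical points of `Γ - Sp / ((q + 1) e)`. -/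
noncomputable def mV (Γ : MvPolynomial (Fin N) K) (i : Fin N) :
    MvPolynomial (Fin N) (Polynomial K) :=
  MvPolynomial.C Polynomial.X * MvPolynomial.pderiv i (MvPolynomial.map Polynomial.C Γ)

/-- `q + 1` times the value. -/
noncomputable def mW (q : ℕ) (Γ : MvPolynomial (Fin N) K) : MvPolynomial (Fin N) (Polynomial K) :=
  MvPolynomial.C ((q + 1 : ℕ) : Polynomial K) * MvPolynomial.map Polynomial.C Γ -
    ∑ i, MvPolynomial.X i * MvPolynomial.pderiv i (MvPolynomial.map Polynomial.C Γ)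

theorem mν_mapC (nr : RNorm K) (Γ : MvPolynomial (Fin N) K) :
    nr.poly.mν (MvPolynomial.map Polynomial.C Γ) ≤ nr.mν Γ := by
  rw [nr.poly.mν_eq_of_subset (MvPolynomial.support_map_subset _ Γ), RNorm.mν]
  apply Finset.sum_le_sum
  intro d _
  rw [MvPolynomial.coeff_map, nr.poly_C]

theorem mV_ν (nr : RNorm K) {q : ℕ} {Γ : MvPolynomial (Fin N) K} (hΓ : DegLE Γ q) {C : ℕ}
    (hC : nr.mν Γ ≤ C) (i : Fin N) : nr.poly.mν (mV Γ i) ≤ q * C := by
  unfold mV
  refine (nr.poly.mν_mul _ _).trans ?_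
  rw [nr.poly.mν_C]
  have h := nr.poly.mν_pderiv (MvPolynomial.map Polynomial.C Γ) q (hΓ.map _) i
  calc nr.poly.ν Polynomial.X * nr.poly.mν (MvPolynomial.pderiv i (MvPolynomial.map Polynomial.C Γ))
      ≤ 1 * (q * C) := Nat.mul_le_mul nr.poly_X
        (h.trans (Nat.mul_le_mul_left _ ((mν_mapC nr Γ).trans hC)))
    _ = q * C := one_mul _

theorem mW_ν (nr : RNorm K) {q : ℕ} {Γ : MvPolynomial (Fin N) K} (hΓ : DegLE Γ q) {C : ℕ}
    (hC : nr.mν Γ ≤ C) : nr.poly.mν (mW q Γ) ≤ (q + 1 + N * q) * C := by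
  unfold mW
  refine (nr.poly.mν_sub _ _).trans ?_
  have h1 : nr.poly.mν (MvPolynomial.C ((q + 1 : ℕ) : Polynomial K) *
      MvPolynomial.map Polynomial.C Γ) ≤ (q + 1) * C := by
    refine (nr.poly.mν_mul _ _).trans ?_
    rw [nr.poly.mν_C]
    exact Nat.mul_le_mul (nr.poly.natCast _) ((mν_mapC nr Γ).trans hC)
  have h2 : nr.poly.mν (∑ i, MvPolynomial.X i *
      MvPolynomial.pderiv i (MvPolynomial.map Polynomial.C Γ)) ≤ N * (q * C) := by
    refine (nr.poly.mν_sum _ _).trans ?_
    have h3 : ∀ i ∈ (univ : Finset (Fin N)), nr.poly.mν (MvPolynomial.X i *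
        MvPolynomial.pderiv i (MvPolynomial.map Polynomial.C Γ)) ≤ q * C := by
      intro i _
      refine (nr.poly.mν_mul _ _).trans ?_
      have h := nr.poly.mν_pderiv (MvPolynomial.map Polynomial.C Γ) q (hΓ.map _) i
      calc nr.poly.mν (MvPolynomial.X i : MvPolynomial (Fin N) (Polynomial K)) *
            nr.poly.mν (MvPolynomial.pderiv i (MvPolynomial.map Polynomial.C Γ)) ≤ 1 * (q * C) :=
            Nat.mul_le_mul (nr.poly.mν_X i)
              (h.trans (Nat.mul_le_mul_left _ ((mν_mapC nr Γ).trans hC)))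
        _ = q * C := one_mul _
    refine (Finset.sum_le_sum h3).trans ?_
    simp
  calc _ ≤ (q + 1) * C + N * (q * C) := Nat.add_le_add h1 h2
    _ = (q + 1 + N * q) * C := by ring

theorem mV_deg {q : ℕ} (hq : 0 < q) {Γ : MvPolynomial (Fin N) K} (hΓ : DegLE Γ q) (i : Fin N) :
    ∀ γ ∈ (mV Γ i).support, (∑ j, γ j) < q := by
  intro γ hγ
  have h := ((hΓ.map (Polynomial.C : K →+* Polynomial K)).pderiv i).C_mul Polynomial.X γ hγ
  omega

theorem mW_deg {q : ℕ} (hq : 0 < q) {Γ : MvPolynomial (Fin N) K} (hΓ : DegLE Γ q) :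
    DegLE (mW q Γ) q := by
  unfold mW
  apply DegLE.sub ((hΓ.map _).C_mul _)
  apply DegLE.sum
  intro i _
  have := (degLE_X (R := Polynomial K) i).mul ((hΓ.map (Polynomial.C : K →+* Polynomial K)).pderiv i)
  exact this.mono (by omega)

theorem eval_mapC (φ : K →+* ℝ) (e : ℝ) (Γ : MvPolynomial (Fin N) K) (z : Fin N → ℝ) :
    (MvPolynomial.map Polynomial.C Γ).eval₂ (Polynomial.eval₂RingHom φ e) z = Γ.eval₂ φ z := by
  rw [MvPolynomial.eval₂_map]
  congr 1
  ext a
  simp

/-- At a local maximum the critical equations hold. -/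
theorem max_crit {q : ℕ} (Γ : MvPolynomial (Fin N) K) (φ : K →+* ℝ) (e : ℝ)
    (he : 0 < e) (z : Fin N → ℝ)
    (hz : ∀ᶠ y in 𝓝 z, Γ.eval₂ φ y - Sp (q + 1) y / ((q + 1) * e) ≤
      Γ.eval₂ φ z - Sp (q + 1) z / ((q + 1) * e)) :
    IsCritQ q (mV Γ) (Polynomial.eval₂RingHom φ e) z ∧
    (mW q Γ).eval₂ (Polynomial.eval₂RingHom φ e) z =
      (q + 1) * (Γ.eval₂ φ z - Sp (q + 1) z / ((q + 1) * e)) := by
  classical
  have hpd : ∀ i, (MvPolynomial.pderiv i (MvPolynomial.map Polynomial.C Γ)).eval₂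
      (Polynomial.eval₂RingHom φ e) z = (MvPolynomial.pderiv i Γ).eval₂ φ z := by
    intro i
    rw [MvPolynomial.pderiv_map, eval_mapC]
  have hq1 : (0 : ℝ) < q + 1 := by positivity
  have key : ∀ i, z i ^ q = e * (MvPolynomial.pderiv i Γ).eval₂ φ z := by
    intro i
    have hd1 := hasDerivAt_eval₂ φ z i Γ
    have hd2 := Sp_deriv q z i
    have hd := hd1.sub (hd2.div_const ((q + 1) * e))
    have hcont : Tendsto (fun t : ℝ => Function.update z i t) (𝓝 (z i)) (𝓝 z) := by
      have h1 : Continuous (fun t : ℝ => Function.update z i t) := continuous_const.update i continuous_id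
      have h2 := h1.tendsto (z i)
      rwa [Function.update_eq_self] at h2
    have hmax : IsLocalMax ((fun t : ℝ => Γ.eval₂ φ (Function.update z i t))
        - fun t : ℝ => Sp (q + 1) (Function.update z i t) / ((q + 1) * e)) (z i) := by
      filter_upwards [hcont.eventually hz] with t ht
      simp only [Pi.sub_apply, Function.update_eq_self]
      exact ht
    have h0 := hmax.hasDerivAt_eq_zero hd
    have he' : e ≠ 0 := ne_of_gt he
    field_simp at h0
    linarith
  refine ⟨?_, ?_⟩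
  · intro i
    rw [key i]
    unfold mV
    rw [MvPolynomial.eval₂_mul, MvPolynomial.eval₂_C, hpd]
    simp
  · unfold mW
    have h1 : (MvPolynomial.eval₂ (Polynomial.eval₂RingHom φ e) z
        (∑ i, MvPolynomial.X i * MvPolynomial.pderiv i (MvPolynomial.map Polynomial.C Γ))) =
        Sp (q + 1) z / e := by
      rw [MvPolynomial.eval₂_sum]
      unfold Sp
      rw [Finset.sum_div]
      apply Finset.sum_congr rfl
      intro i _
      rw [MvPolynomial.eval₂_mul, MvPolynomial.eval₂_X, hpd]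
      have h2 : z i ^ (q + 1) = z i * z i ^ q := by ring
      rw [h2, key i]
      field_simp
    rw [MvPolynomial.eval₂_sub, h1, MvPolynomial.eval₂_mul, MvPolynomial.eval₂_C, eval_mapC]
    have h3 : (Polynomial.eval₂RingHom φ e) ((q + 1 : ℕ) : Polynomial K) = q + 1 := by
      rw [map_natCast]; push_cast; ring
    rw [h3]
    field_simp

/-- The supremum of a polynomial on a bounded open set, on whose boundary the polynomial vanishes,
satisfies an algebraic relation of bounded norm. -/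
theorem exists_max_relation [Nontrivial K] (nr : RNorm K) {q : ℕ} (hq : Odd q)
    (Γ : MvPolynomial (Fin N) K) (hΓ : DegLE Γ q) (C : ℕ) (hC : nr.mν Γ ≤ C) (hC1 : 1 ≤ C) :
    ∃ Υ : Polynomial K, Υ ≠ 0 ∧ nr.poly.ν Υ ≤ bndR N q C ∧
      ∀ (φ : K →+* ℝ) (U : Set (Fin N → ℝ)) (M : ℝ), IsOpen U → Bornology.IsBounded U →
        (∀ x ∈ frontier U, Γ.eval₂ φ x = 0) → IsLUB ((fun x => Γ.eval₂ φ x) '' U) M → 0 < M →
        Υ.eval₂ φ ((q + 1) * M) = 0 := by
  classical
  have hq0 : 0 < q := hq.pos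
  obtain ⟨χ, hmonic, hχν, hχ⟩ := value_rootQ nr.poly hq0 (mV Γ) (q * C)
    (Nat.mul_pos hq0 hC1) (mV_deg hq0 hΓ) (mV_ν nr hΓ hC) (mW q Γ) q (mW_deg hq0 hΓ)
  obtain ⟨Υ, hΥ0, hΥν, hlim⟩ := limit_step nr χ hmonic.ne_zero
  refine ⟨Υ, hΥ0, ?_, ?_⟩
  · refine hΥν.trans (hχν.trans ?_)
    unfold bndR
    apply Nat.pow_le_pow_left
    apply Nat.add_le_add_left
    exact Nat.mul_le_mul_right _ (mW_ν nr hΓ hC)
  · intro φ U M hUo hUb hfr hM hM0
    have hgc : Continuous (fun x : Fin N → ℝ => Γ.eval₂ φ x) := eval₂_cont φ Γ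
    have hev : Even (q + 1) := hq.add_one
    have hq1 : (0 : ℝ) < q + 1 := by positivity
    -- the regularised function
    let f : ℝ → (Fin N → ℝ) → ℝ := fun e x => Γ.eval₂ φ x - Sp (q + 1) x / ((q + 1) * e)
    have hfc : ∀ e, Continuous (f e) := fun e => hgc.sub ((Sp_cont _).div_const _)
    have hUne : U.Nonempty := by
      by_contra h
      rw [Set.not_nonempty_iff_eq_empty] at h
      rw [h, Set.image_empty] at hM
      have := hM.2 (show M - 1 ∈ upperBounds ∅ by simp)
      linarith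
    have hcomp : IsCompact (closure U) := hUb.isCompact_closure
    obtain ⟨x0, hx0U, hx0⟩ : ∃ x0 ∈ U, M / 2 < Γ.eval₂ φ x0 := by
      by_contra h
      push Not at h
      have : M ≤ M / 2 := hM.2 (by rintro _ ⟨x, hx, rfl⟩; exact h x hx)
      linarith
    have hexm : ∀ e, ∃ x ∈ closure U, ∀ y ∈ closure U, f e y ≤ f e x := by
      intro e
      obtain ⟨x, hx, hmx⟩ := hcomp.exists_isMaxOn hUne.closure (hfc e).continuousOn
      exact ⟨x, hx, hmx⟩
    choose xe hxe hxm using hexm
    -- for large e the maximum is attained inside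
    have hin : ∀ᶠ e in atTop, xe e ∈ U := by
      have h1 : Tendsto (fun e : ℝ => Γ.eval₂ φ x0 - Sp (q + 1) x0 / ((q + 1) * e)) atTop
          (𝓝 (Γ.eval₂ φ x0)) := by
        have h2 : Tendsto (fun e : ℝ => Sp (q + 1) x0 / ((q + 1) * e)) atTop (𝓝 0) :=
          (tendsto_const_nhds).div_atTop (tendsto_id.const_mul_atTop hq1)
        simpa using tendsto_const_nhds.sub h2
      have h3 : ∀ᶠ e : ℝ in atTop, 0 < Γ.eval₂ φ x0 - Sp (q + 1) x0 / ((q + 1) * e) :=
        h1.eventually (lt_mem_nhds (by linarith))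
      filter_upwards [h3, eventually_gt_atTop (0 : ℝ)] with e he he0
      by_contra hnU
      have hfrx : xe e ∈ frontier U := by
        rw [hUo.frontier_eq]
        exact ⟨hxe e, hnU⟩
      have h4 : f e (xe e) ≤ 0 := by
        simp only [f]
        rw [hfr _ hfrx]
        have := div_nonneg (Sp_nonneg hev (xe e)) (by positivity : (0:ℝ) ≤ (q + 1) * e)
        linarith
      have h5 : f e x0 ≤ f e (xe e) := hxm e x0 (subset_closure hx0U)
      simp only [f] at h4 h5
      linarith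
    have hval : Tendsto (fun e => (q + 1 : ℝ) * f e (xe e)) atTop (𝓝 ((q + 1) * M)) := by
      apply Tendsto.const_mul
      rw [tendsto_order]
      constructor
      · intro m' hm'
        obtain ⟨x1, hx1U, hx1⟩ : ∃ x1 ∈ U, m' < Γ.eval₂ φ x1 := by
          by_contra h
          push Not at h
          have : M ≤ m' := hM.2 (by rintro _ ⟨x, hx, rfl⟩; exact h x hx)
          linarith
        have h1 : Tendsto (fun e : ℝ => Γ.eval₂ φ x1 - Sp (q + 1) x1 / ((q + 1) * e)) atTop
            (𝓝 (Γ.eval₂ φ x1)) := by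
          have h2 : Tendsto (fun e : ℝ => Sp (q + 1) x1 / ((q + 1) * e)) atTop (𝓝 0) :=
            (tendsto_const_nhds).div_atTop (tendsto_id.const_mul_atTop hq1)
          simpa using tendsto_const_nhds.sub h2
        filter_upwards [h1.eventually (lt_mem_nhds hx1)] with e he
        exact lt_of_lt_of_le he (hxm e x1 (subset_closure hx1U))
      · intro m' hm'
        filter_upwards [hin, eventually_gt_atTop (0 : ℝ)] with e he he0
        have h1 : Γ.eval₂ φ (xe e) ≤ M := hM.1 ⟨_, he, rfl⟩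
        have h2 := div_nonneg (Sp_nonneg hev (xe e)) (by positivity : (0:ℝ) ≤ (q + 1) * e)
        simp only [f]
        linarith
    apply hlim φ (fun e => (q + 1 : ℝ) * f e (xe e)) _ hval
    filter_upwards [hin, eventually_gt_atTop (0 : ℝ)] with e he he0
    have hloc : ∀ᶠ y in 𝓝 (xe e), Γ.eval₂ φ y - Sp (q + 1) y / ((q + 1) * e) ≤
        Γ.eval₂ φ (xe e) - Sp (q + 1) (xe e) / ((q + 1) * e) := by
      filter_upwards [hUo.mem_nhds he] with y hy
      exact hxm e y (subset_closure hy)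
    obtain ⟨h1, h2⟩ := max_crit Γ φ e he0 (xe e) hloc
    have h3 := hχ _ _ h1
    rw [h2] at h3
    exact h3

end Pool.Agent.R537.RN
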