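import Pool.Agent.R537.RN.Forms

/-!
# A compact normal form for sentences `∃ x ∀ y ∃ z`
-/

set_option autoImplicit false

namespace Pool.Agent.R537.RN

open Finset Filter Topology Pool.Agent.H612 Pool.Agent.NPC

variable {n m l : ℕ} (loc : ℕ → Fin n ⊕ (Fin m ⊕ Fin l)) (S : List ER.Con)

/-- The sentence `∃ x ∀ y ∃ z, S`. -/
def Sent : Prop := ∃ x : Fin n → ℝ, ∀ y : Fin m → ℝ, ∃ z : Fin l → ℝ,
  ER.SysHolds (pick loc x y z) S

/-- The first exponent. -/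
def kap (l s : ℕ) : ℕ := Gx l (s + 4)
/-- The second exponent. -/
def kap' (m l s : ℕ) : ℕ := Gx (m + 1) (Gx (l + 1) (kap l s + s + 6))
/-- The third exponent. -/
def kap'' (n m l s : ℕ) : ℕ :=
  Gx n (Gx (m + 2) (Gx (l + 1) (kap l s + kap' m l s + s + 6)))

theorem exists_scale {l : ℕ} (z : Fin l → ℝ) (g : ℝ) :
    ∃ t : ℝ, 0 < t ∧ t < 1 ∧ (∀ j, |t * z j| < 1) ∧ |t * g| < 1 := by
  have h0 : 0 ≤ ∑ j, |z j| := Finset.sum_nonneg fun _ _ => abs_nonneg _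
  have hg := abs_nonneg g
  have hd : 0 < 2 + ∑ j, |z j| + |g| := by positivity
  have key : ∀ a : ℝ, |a| < 2 + ∑ j, |z j| + |g| → |1 / (2 + ∑ j, |z j| + |g|) * a| < 1 := by
    intro a ha
    rw [abs_mul, abs_of_pos (by positivity), one_div, inv_mul_lt_iff₀ hd, mul_one]
    exact ha
  refine ⟨1 / (2 + ∑ j, |z j| + |g|), by positivity, ?_, ?_, ?_⟩
  · rw [div_lt_one hd]; linarith
  · intro j
    apply key
    have : |z j| ≤ ∑ j, |z j| := Finset.single_le_sum (f := fun j => |z j|)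
      (fun _ _ => abs_nonneg _) (mem_univ j)
    linarith
  · apply key; linarith

theorem qsum_t (t : ℝ) (x : Fin n → ℝ) (y : Fin m → ℝ) (z : Fin l → ℝ) :
    qsum (pick loc (fun j => t * x j) (fun j => t * y j) (fun j => t * z j)) t S =
      t ^ 4 * qsum (pick loc x y z) 1 S := by
  rw [← qsum_scale]
  congr 1
  · funext i
    rw [pick_scale]
  · ring

/-- If `∃ z` fails, then a Łojasiewicz inequality holds. -/
theorem L1 (x : Fin n → ℝ) (y : Fin m → ℝ)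
    (hno : ¬ ∃ z : Fin l → ℝ, ER.SysHolds (pick loc x y z) S) :
    ∃ c : ℝ, 0 < c ∧ ∀ z ∈ cube l, ∀ t : ℝ, 0 ≤ t → t ≤ 1 →
      c * t ^ (2 ^ kap l S.length) ≤
        qsum (pick loc (fun j => t * x j) (fun j => t * y j) z) t S := by
  obtain ⟨F, hFdef⟩ : ∃ F : MvPolynomial (Fin l) (MvPolynomial (Fin 1) ℝ), F =
      qsum (pick loc
        (fun j => MvPolynomial.C
          (MvPolynomial.X 0 * MvPolynomial.C (x j) : MvPolynomial (Fin 1) ℝ))
        (fun j => MvPolynomial.C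
          (MvPolynomial.X 0 * MvPolynomial.C (y j) : MvPolynomial (Fin 1) ℝ))
        (fun j => MvPolynomial.X j)) (MvPolynomial.C (MvPolynomial.X 0)) S := ⟨_, rfl⟩
  have hF : ∀ s, ((Lvl.real.ext 1).ext l).φ s F = qsum (pick loc (fun j => s.1.2 0 * x j)
      (fun j => s.1.2 0 * y j) s.2) (s.1.2 0) S := by
    intro s
    rw [hFdef, qsum_map]
    simp only [pick_map, ext_φ_C, ext_φ_X, map_mul]
    rfl
  have hFν : (wm (wm trN 1) l).ν F ≤ 9 * 2 ^ 4 * S.length := by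
    rw [hFdef]
    have htr : ∀ c : ℝ, trN.ν c ≤ 1 := by
      intro c
      simp only [trN]
      split_ifs <;> omega
    have h1 : ∀ c : ℝ, (wm trN 1).ν (MvPolynomial.X 0 * MvPolynomial.C c) ≤ 2 := by
      intro c
      refine ((wm trN 1).mul _ _).trans ?_
      rw [wm_C]
      exact Nat.mul_le_mul (wm_X trN 0) (htr c)
    apply qsum_ν
    · apply pick_ν
      · intro j
        rw [wm_C]
        exact h1 _
      · intro j
        rw [wm_C]
        exact h1 _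
      · intro j
        exact wm_X _ j
    · rw [wm_C]
      exact wm_X _ 0
  obtain ⟨h, hh⟩ : ∃ h : (Unit × (Fin 1 → ℝ)) × (Fin l → ℝ) → ℝ, ∀ s,
      h s = -((Lvl.real.ext 1).ext l).φ s F := ⟨_, fun s => rfl⟩
  have hc : Continuous h := by
    have : h = fun s => -((Lvl.real.ext 1).ext l).φ s F := funext hh
    rw [this]
    exact (((Lvl.real.ext 1).ext l).cont F).neg
  have hP0 : Polynomial.X + Polynomial.C F ≠ 0 := (Polynomial.monic_X_add_C F).ne_zero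
  have hB : (wm (wm trN 1) l).poly.ν (Polynomial.X + Polynomial.C F) ≤
      2 ^ 2 ^ (S.length + 4) := by
    refine (ν_X_add_C _ F).trans ?_
    have h1 : S.length + 1 ≤ 2 ^ S.length := Nat.lt_two_pow_self
    have h2 : 2 ^ (S.length + 4) = 16 * 2 ^ S.length := by rw [pow_add]; ring
    have h3 : 2 ^ (8 + S.length) ≤ 2 ^ 2 ^ (S.length + 4) :=
      Nat.pow_le_pow_right (by norm_num) (by omega)
    have h4 : 2 ^ (8 + S.length) = 256 * 2 ^ S.length := by rw [pow_add]; ring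
    have h5 : 1 + (wm (wm trN 1) l).ν F ≤ 1 + 9 * 2 ^ 4 * S.length := by omega
    omega
  obtain ⟨Q, hQ0, hQν, hQ⟩ := (Lvl.real.ext 1).step (wm trN 1) (wm_pos trN trN_pos)
    (Polynomial.X + Polynomial.C F) hP0 _ hB Nat.one_le_two_pow h hc (fun s => by
      rw [Polynomial.eval₂_add, Polynomial.eval₂_X, Polynomial.eval₂_C, hh]; ring)
  have hQν' : (wm trN 1).poly.ν (flip Q) < 2 ^ (2 ^ kap l S.length + 1) := by
    have h1 := (flip_ν (wm trN 1) Q).trans (hQν.trans (bndL_le l (S.length + 4) _ (le_refl _)))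
    refine lt_of_le_of_lt h1 ?_
    exact Nat.pow_lt_pow_right (by norm_num) (Nat.lt_succ_self _)
  obtain ⟨b, hb⟩ : ∃ b : ℝ → ℝ, ∀ s, b s = -bmax h ((), fun _ => s) := ⟨_, fun s => rfl⟩
  have hbc : Continuous b := by
    have : b = fun s => -bmax h ((), fun _ => s) := funext hb
    rw [this]
    exact ((continuous_bmax hc).comp (by fun_prop)).neg
  have hbpos : ∀ s, 0 < s → s ≤ 1 → 0 < b s := by
    intro s hs0 _
    obtain ⟨z, _, hz2⟩ := exists_bmax hc (((), fun _ => s) : Unit × (Fin 1 → ℝ))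
    rw [hb, ← hz2, hh, hF, neg_neg]
    refine lt_of_le_of_ne (qsum_nonneg _ _ _) fun h0 => hno ⟨fun j => s⁻¹ * z j, ?_⟩
    rw [← qsum_one_iff]
    have h1 := qsum_t loc S s x y (fun j => s⁻¹ * z j)
    have h2 : (fun j => s * (s⁻¹ * z j)) = z := by
      funext j
      rw [← mul_assoc, mul_inv_cancel₀ hs0.ne', one_mul]
    rw [h2] at h1
    have h3 : s ^ 4 * qsum (pick loc x y fun j => s⁻¹ * z j) 1 S = 0 := by
      rw [← h1]
      exact h0.symm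
    exact (mul_eq_zero.1 h3).resolve_left (pow_ne_zero _ hs0.ne')
  obtain ⟨c, hc0, hcl⟩ := loj (flip Q) (flip_ne_zero Q hQ0) _ hQν' b hbc hbpos (fun s => by
    rw [flip_eval, hb, neg_neg]
    exact hQ _)
  refine ⟨c, hc0, fun z hz t ht0 ht1 => (hcl t ht0 ht1).trans ?_⟩
  have h1 := le_bmax hc (((), fun _ => t) : Unit × (Fin 1 → ℝ)) hz
  rw [hh, hF] at h1
  rw [hb]
  linarith

theorem bound_B (s κ κ' : ℕ) :
    1 + (188743680 * s + 65536 * 4 ^ 2 ^ κ + 32 * 4 ^ 2 ^ κ') ≤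
      2 ^ 2 ^ (κ + κ' + s + 6) := by
  have h2 : ∀ k : ℕ, k + 1 ≤ 2 ^ k := fun k => Nat.lt_two_pow_self
  have hT : 2 ^ (κ + κ' + s + 6) = 64 * 2 ^ (κ + κ' + s) := by rw [pow_add]; ring
  set T := 2 ^ (κ + κ' + s) with hTd
  have h1 : 1 ≤ T := Nat.one_le_two_pow
  have hκ : 2 ^ κ ≤ T := Nat.pow_le_pow_right (by norm_num) (by omega)
  have hκ' : 2 ^ κ' ≤ T := Nat.pow_le_pow_right (by norm_num) (by omega)
  have hs : s ≤ 2 ^ T := by
    have h3 : 2 ^ s ≤ T := Nat.pow_le_pow_right (by norm_num) (by omega)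
    have := h2 s
    have := h2 T
    omega
  have e1 : (4 : ℕ) ^ 2 ^ κ ≤ 2 ^ (2 * T) := by
    rw [show (4 : ℕ) = 2 ^ 2 by norm_num, ← pow_mul]
    exact Nat.pow_le_pow_right (by norm_num) (by omega)
  have e2 : (4 : ℕ) ^ 2 ^ κ' ≤ 2 ^ (2 * T) := by
    rw [show (4 : ℕ) = 2 ^ 2 by norm_num, ← pow_mul]
    exact Nat.pow_le_pow_right (by norm_num) (by omega)
  have e3 : 2 ^ T ≤ 2 ^ (2 * T) := Nat.pow_le_pow_right (by norm_num) (by omega)
  rw [hT]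
  calc 1 + (188743680 * s + 65536 * 4 ^ 2 ^ κ + 32 * 4 ^ 2 ^ κ')
      ≤ 2 ^ 30 * 2 ^ (2 * T) := by
        have : 1 ≤ 2 ^ (2 * T) := Nat.one_le_two_pow
        omega
    _ = 2 ^ (30 + 2 * T) := (pow_add _ _ _).symm
    _ ≤ 2 ^ (64 * T) := Nat.pow_le_pow_right (by norm_num) (by omega)

/-- If `x` is good, then the inequality holds with a margin. -/
theorem L2 (x : Fin n → ℝ)
    (hx : ∀ y : Fin m → ℝ, ∃ z : Fin l → ℝ, ER.SysHolds (pick loc x y z) S) :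
    ∃ c : ℝ, 0 < c ∧ ∀ r : ℝ, 0 ≤ r → r ≤ 1 → ∀ Y ∈ cube (m + 1), ∃ U ∈ cube (l + 1),
      Phi loc S 1 r (Y 0) ((U 0) ^ 2) (((U 0) ^ 2) ^ (2 ^ kap l S.length)) 0 x
        (fun j => Y j.succ) (fun j => U j.succ) ≤ -(c * r ^ (2 ^ kap' m l S.length)) := by
  obtain ⟨κ, hκ⟩ : ∃ κ, κ = kap l S.length := ⟨_, rfl⟩
  rw [← hκ]
  obtain ⟨F, hFdef⟩ : ∃ F : MvPolynomial (Fin (l + 1)) (MvPolynomial (Fin (m + 1))
      (MvPolynomial (Fin 1) ℝ)), F =
      Phi loc S 1 (MvPolynomial.C (MvPolynomial.C (MvPolynomial.X 0)))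
        (MvPolynomial.C (MvPolynomial.X 0)) ((MvPolynomial.X 0) ^ 2)
        (((MvPolynomial.X 0) ^ 2) ^ (2 ^ κ)) 0
        (fun j => MvPolynomial.C (MvPolynomial.C (MvPolynomial.C (x j))))
        (fun j => MvPolynomial.C (MvPolynomial.X j.succ)) (fun j => MvPolynomial.X j.succ) :=
    ⟨_, rfl⟩
  have hF : ∀ s, (((Lvl.real.ext 1).ext (m + 1)).ext (l + 1)).φ s F =
      Phi loc S 1 (s.1.1.2 0) (s.1.2 0) ((s.2 0) ^ 2) (((s.2 0) ^ 2) ^ (2 ^ κ)) 0 x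
        (fun j => s.1.2 j.succ) (fun j => s.2 j.succ) := by
    intro s
    rw [hFdef, Phi_map]
    simp only [ext_φ_C, ext_φ_X, map_one, map_zero, map_pow]
    rfl
  have hFν : (wm (wm (wm trN 1) (m + 1)) (l + 1)).ν F ≤
      188743680 * S.length + 65536 * 4 ^ 2 ^ κ + 32 * 4 ^ 2 ^ 0 := by
    rw [hFdef]
    have htr : ∀ c : ℝ, trN.ν c ≤ 1 := by
      intro c
      simp only [trN]
      split_ifs <;> omega
    have hX2 : (wm (wm (wm trN 1) (m + 1)) (l + 1)).ν ((MvPolynomial.X 0) ^ 2) ≤ 4 :=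
      ν_pow _ _ 2 2 (wm_X _ _)
    apply Phi_ν
    · exact (RNorm.one _).trans (by norm_num)
    · rw [wm_C, wm_C]; exact (wm_X _ _).trans (by norm_num)
    · rw [wm_C]; exact wm_X _ _
    · exact hX2
    · exact ν_pow _ _ _ _ hX2
    · rw [RNorm.zero]; exact Nat.zero_le _
    · intro j
      rw [wm_C, wm_C, wm_C]
      exact (htr _).trans (by norm_num)
    · intro j
      rw [wm_C]; exact wm_X _ _
    · intro j
      exact wm_X _ _
  obtain ⟨h, hh⟩ : ∃ h : ((Unit × (Fin 1 → ℝ)) × (Fin (m + 1) → ℝ)) × (Fin (l + 1) → ℝ) → ℝ,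
      ∀ s, h s = -(((Lvl.real.ext 1).ext (m + 1)).ext (l + 1)).φ s F := ⟨_, fun s => rfl⟩
  have hc : Continuous h := by
    have : h = fun s => -(((Lvl.real.ext 1).ext (m + 1)).ext (l + 1)).φ s F := funext hh
    rw [this]
    exact ((((Lvl.real.ext 1).ext (m + 1)).ext (l + 1)).cont F).neg
  have hP0 : Polynomial.X + Polynomial.C F ≠ 0 := (Polynomial.monic_X_add_C F).ne_zero
  have hB : (wm (wm (wm trN 1) (m + 1)) (l + 1)).poly.ν (Polynomial.X + Polynomial.C F) ≤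
      2 ^ 2 ^ (κ + S.length + 6) := by
    refine (ν_X_add_C _ F).trans ?_
    have h1 := bound_B S.length κ 0
    simp only [add_zero] at h1
    omega
  obtain ⟨Q, hQ0, hQν, hQ⟩ := ((Lvl.real.ext 1).ext (m + 1)).step (wm (wm trN 1) (m + 1))
    (wm_pos _ (wm_pos trN trN_pos)) (Polynomial.X + Polynomial.C F) hP0 _ hB
    Nat.one_le_two_pow h hc (fun s => by
      rw [Polynomial.eval₂_add, Polynomial.eval₂_X, Polynomial.eval₂_C, hh]; ring)
  have hQν' := (flip_ν (wm (wm trN 1) (m + 1)) Q).trans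
    (hQν.trans (bndL_le (l + 1) (κ + S.length + 6) _ (le_refl _)))
  obtain ⟨h1, hh1⟩ : ∃ h1 : (Unit × (Fin 1 → ℝ)) × (Fin (m + 1) → ℝ) → ℝ,
      ∀ s, h1 s = -bmax h s := ⟨_, fun s => rfl⟩
  have hc1 : Continuous h1 := by
    have : h1 = fun s => -bmax h s := funext hh1
    rw [this]
    exact (continuous_bmax hc).neg
  obtain ⟨Q1, hQ10, hQ1ν, hQ1⟩ := (Lvl.real.ext 1).step (wm trN 1)
    (wm_pos trN trN_pos) (flip Q) (flip_ne_zero Q hQ0) _ hQν'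
    Nat.one_le_two_pow h1 hc1 (fun s => by
      rw [flip_eval, hh1, neg_neg]
      exact hQ s)
  have hQ1ν' : (wm trN 1).poly.ν (flip Q1) < 2 ^ (2 ^ kap' m l S.length + 1) := by
    have h1 := (flip_ν (wm trN 1) Q1).trans (hQ1ν.trans (bndL_le (m + 1) _ _ (le_refl _)))
    unfold kap'
    rw [← hκ]
    refine lt_of_le_of_lt h1 ?_
    exact Nat.pow_lt_pow_right (by norm_num) (Nat.lt_succ_self _)
  obtain ⟨b, hb⟩ : ∃ b : ℝ → ℝ, ∀ s, b s = -bmax h1 ((), fun _ => s) := ⟨_, fun s => rfl⟩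
  have hbc : Continuous b := by
    have : b = fun s => -bmax h1 ((), fun _ => s) := funext hb
    rw [this]
    exact ((continuous_bmax hc1).comp (by fun_prop)).neg
  have hbpos : ∀ s, 0 < s → s ≤ 1 → 0 < b s := by
    intro s hs0 _
    obtain ⟨Y, hY, hY2⟩ := exists_bmax hc1 (((), fun _ => s) : Unit × (Fin 1 → ℝ))
    rw [hb, ← hY2, hh1, neg_neg]
    obtain ⟨z, hz⟩ := hx fun j => s⁻¹ * Y j.succ
    obtain ⟨t, ht0, ht1, htz, -⟩ := exists_scale z 0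
    have hw : (Real.sqrt t) ^ 2 = t := Real.sq_sqrt ht0.le
    have hU : (Fin.cons (Real.sqrt t) fun j => t * z j : Fin (l + 1) → ℝ) ∈ cube (l + 1) := by
      intro j
      refine Fin.cases ?_ (fun j => ?_) j
      · rw [Fin.cons_zero, abs_of_nonneg (Real.sqrt_nonneg t)]
        exact Real.sqrt_le_one.2 ht1.le
      · rw [Fin.cons_succ]; exact (htz j).le
    have h2 := le_bmax hc ((((), fun _ => s), Y) : (Unit × (Fin 1 → ℝ)) × (Fin (m + 1) → ℝ)) hU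
    refine lt_of_lt_of_le ?_ h2
    rw [hh, hF]
    simp only [Fin.cons_zero, Fin.cons_succ]
    rw [hw]
    have h3 := Phi_unscale loc S s (s⁻¹ * Y 0) t (t ^ 2 ^ κ) 0 x (fun j => s⁻¹ * Y j.succ)
      (fun j => t * z j)
    have e1 : s * (s⁻¹ * Y 0) = Y 0 := by rw [← mul_assoc, mul_inv_cancel₀ hs0.ne', one_mul]
    have e2 : (fun j : Fin m => s * (s⁻¹ * Y j.succ)) = fun j => Y j.succ := by
      funext j
      rw [← mul_assoc, mul_inv_cancel₀ hs0.ne', one_mul]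
    rw [e1, e2, qsum_t, (qsum_one_iff _ _).2 hz] at h3
    rw [h3]
    have : 0 < s ^ 6 * t ^ 2 ^ κ := by positivity
    nlinarith
  obtain ⟨c, hc0, hcl⟩ := loj (flip Q1) (flip_ne_zero Q1 hQ10) _ hQ1ν' b hbc hbpos (fun s => by
    rw [flip_eval, hb, neg_neg]
    exact hQ1 _)
  refine ⟨c, hc0, fun r hr0 hr1 Y hY => ?_⟩
  have h2 := hcl r hr0 hr1
  have h3 := le_bmax hc1 (((), fun _ => r) : Unit × (Fin 1 → ℝ)) hY
  obtain ⟨U, hU, hU2⟩ := exists_bmax hc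
    ((((), fun _ => r), Y) : (Unit × (Fin 1 → ℝ)) × (Fin (m + 1) → ℝ))
  refine ⟨U, hU, ?_⟩
  rw [hh1, ← hU2, hh, hF, neg_neg] at h3
  rw [hb] at h2
  linarith

/-- The compact form of the sentence with the parameter `σ`. -/
def Good (σ : ℝ) : Prop := ∃ x ∈ cube n, ∀ Y ∈ cube (m + 2), ∃ U ∈ cube (l + 1),
  Phi loc S σ ((Y 0) ^ 2) (Y 1) ((U 0) ^ 2) (((U 0) ^ 2) ^ (2 ^ kap l S.length))
    (((Y 0) ^ 2) ^ (2 ^ kap' m l S.length)) x (fun j => Y j.succ.succ) (fun j => U j.succ) ≤ 0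

theorem good_of_sent (h : Sent loc S) : ∃ σ : ℝ, 0 < σ ∧ σ ≤ 1 ∧ Good loc S σ := by
  obtain ⟨x, hx⟩ := h
  obtain ⟨c, hc0, hc⟩ := L2 loc S x hx
  obtain ⟨t, ht0, ht1, htx, -⟩ := exists_scale x 0
  have hσ0 : 0 < min c t := lt_min hc0 ht0
  have hσ1 : min c t ≤ 1 := (min_le_right _ _).trans ht1.le
  refine ⟨min c t, hσ0, hσ1, fun j => min c t * x j, ?_, ?_⟩
  · intro j
    have h1 := (htx j).le
    rw [abs_mul, abs_of_pos ht0] at h1
    rw [abs_mul, abs_of_pos hσ0]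
    exact (mul_le_mul_of_nonneg_right (min_le_right _ _) (abs_nonneg _)).trans h1
  · intro Y hY
    have hr0 : 0 ≤ (Y 0) ^ 2 := sq_nonneg _
    have hr1 : (Y 0) ^ 2 ≤ 1 := by
      have := hY 0
      rw [← sq_abs]
      nlinarith [abs_nonneg (Y 0)]
    obtain ⟨U, hU, hPhi⟩ := hc ((Y 0) ^ 2) hr0 hr1 (fun j => Y j.succ) (fun j => hY j.succ)
    refine ⟨U, hU, ?_⟩
    rw [Phi_scale]
    have h1 : Phi loc S 1 (Y 0 ^ 2) (Y 1) (U 0 ^ 2) ((U 0 ^ 2) ^ 2 ^ kap l S.length)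
        (min c t * (Y 0 ^ 2) ^ 2 ^ kap' m l S.length) x (fun j => Y j.succ.succ)
        (fun j => U j.succ) = Phi loc S 1 (Y 0 ^ 2) (Y 1) (U 0 ^ 2)
        ((U 0 ^ 2) ^ 2 ^ kap l S.length) 0 x (fun j => Y j.succ.succ) (fun j => U j.succ) +
        min c t * (Y 0 ^ 2) ^ 2 ^ kap' m l S.length := by
      simp only [Phi]; ring
    rw [h1]
    have h2 : min c t * (Y 0 ^ 2) ^ 2 ^ kap' m l S.length ≤
        c * (Y 0 ^ 2) ^ 2 ^ kap' m l S.length :=
      mul_le_mul_of_nonneg_right (min_le_left _ _) (by positivity)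
    have h3 : Phi loc S 1 (Y 0 ^ 2) (Y 1) (U 0 ^ 2)
        ((U 0 ^ 2) ^ 2 ^ kap l S.length) 0 x (fun j => Y j.succ.succ) (fun j => U j.succ) ≤
        -(c * (Y 0 ^ 2) ^ 2 ^ kap' m l S.length) := hPhi
    have h4 : 0 ≤ min c t ^ 4 := by positivity
    nlinarith

theorem good_mono {σ σ' : ℝ} (h0 : 0 < σ') (h1 : σ' ≤ σ) (h : Good loc S σ) :
    Good loc S σ' := by
  obtain ⟨x, hx, hY⟩ := h
  have hσ : 0 < σ := lt_of_lt_of_le h0 h1
  have hq : σ' / σ ≤ 1 := (div_le_one hσ).2 h1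
  have hq0 : 0 < σ' / σ := by positivity
  refine ⟨fun j => σ' / σ * x j, ?_, ?_⟩
  · intro j
    rw [abs_mul, abs_of_pos hq0]
    have := hx j
    nlinarith [abs_nonneg (x j)]
  · intro Y hY'
    obtain ⟨U, hU, hPhi⟩ := hY Y hY'
    refine ⟨U, hU, ?_⟩
    have e1 : (fun j => σ' / σ * x j) = fun j => σ' * (σ⁻¹ * x j) := by
      funext j; field_simp
    have e2 : x = fun j => σ * (σ⁻¹ * x j) := by
      funext j
      rw [← mul_assoc, mul_inv_cancel₀ hσ.ne', one_mul]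
    rw [e2, Phi_scale] at hPhi
    rw [e1, Phi_scale]
    have h2 : ∀ τ : ℝ, Phi loc S 1 (Y 0 ^ 2) (Y 1) (U 0 ^ 2) ((U 0 ^ 2) ^ 2 ^ kap l S.length)
        (τ * (Y 0 ^ 2) ^ 2 ^ kap' m l S.length) (fun j => σ⁻¹ * x j) (fun j => Y j.succ.succ)
        (fun j => U j.succ) = Phi loc S 1 (Y 0 ^ 2) (Y 1) (U 0 ^ 2)
        ((U 0 ^ 2) ^ 2 ^ kap l S.length) 0 (fun j => σ⁻¹ * x j) (fun j => Y j.succ.succ)
        (fun j => U j.succ) + τ * (Y 0 ^ 2) ^ 2 ^ kap' m l S.length := by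
      intro τ
      simp only [Phi]; ring
    rw [h2] at hPhi ⊢
    have h3 : σ' * (Y 0 ^ 2) ^ 2 ^ kap' m l S.length ≤ σ * (Y 0 ^ 2) ^ 2 ^ kap' m l S.length :=
      mul_le_mul_of_nonneg_right h1 (by positivity)
    have h4 : 0 < σ ^ 4 := by positivity
    have h5 : 0 ≤ σ' ^ 4 := by positivity
    have h6 := nonpos_of_mul_nonpos_right hPhi h4
    nlinarith

theorem sent_of_good {σ : ℝ} (h0 : 0 < σ) (x : Fin n → ℝ)
    (h : ∀ Y ∈ ocube (m + 2), ∃ U ∈ cube (l + 1),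
      Phi loc S σ ((Y 0) ^ 2) (Y 1) ((U 0) ^ 2) (((U 0) ^ 2) ^ (2 ^ kap l S.length))
        (((Y 0) ^ 2) ^ (2 ^ kap' m l S.length)) x (fun j => Y j.succ.succ)
        (fun j => U j.succ) ≤ 0) : Sent loc S := by
  refine ⟨fun j => σ⁻¹ * x j, fun y => ?_⟩
  by_contra hno
  obtain ⟨c, hc0, hc⟩ := L1 loc S (fun j => σ⁻¹ * x j) y hno
  -- choose `γ` large
  obtain ⟨γ, hγ⟩ : ∃ γ : ℝ, 1 ≤ (1 + γ ^ 2) * c := by
    refine ⟨1 / c + 1, ?_⟩
    have : 0 < 1 / c := by positivity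
    have h1 : 1 / c * c = 1 := by field_simp
    nlinarith
  obtain ⟨r, hr0, hr1, hry, hrγ⟩ := exists_scale y γ
  have hw : (Real.sqrt r) ^ 2 = r := Real.sq_sqrt hr0.le
  have hY : (Fin.cons (Real.sqrt r) (Fin.cons (r * γ) fun j => r * y j) :
      Fin (m + 2) → ℝ) ∈ ocube (m + 2) := by
    intro j
    refine Fin.cases ?_ (fun j => ?_) j
    · rw [Fin.cons_zero, abs_of_nonneg (Real.sqrt_nonneg r)]
      rw [Real.sqrt_lt' one_pos, one_pow]; exact hr1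
    · rw [Fin.cons_succ]
      refine Fin.cases ?_ (fun j => ?_) j
      · rw [Fin.cons_zero]; exact hrγ
      · rw [Fin.cons_succ]; exact hry j
  obtain ⟨U, hU, hPhi⟩ := h _ hY
  have e0 : (Fin.cons (Real.sqrt r) (Fin.cons (r * γ) fun j => r * y j) :
      Fin (m + 2) → ℝ) 1 = r * γ := rfl
  have e3 : (fun j : Fin m => (Fin.cons (Real.sqrt r) (Fin.cons (r * γ) fun j => r * y j) :
      Fin (m + 2) → ℝ) j.succ.succ) = fun j => r * y j := rfl
  rw [e0, e3, Fin.cons_zero, hw] at hPhi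
  have e2 : x = fun j => σ * (σ⁻¹ * x j) := by
    funext j
    rw [← mul_assoc, mul_inv_cancel₀ h0.ne', one_mul]
  rw [e2, Phi_scale, Phi_unscale] at hPhi
  have h4 : 0 < σ ^ 4 := by positivity
  have h6 := nonpos_of_mul_nonpos_right hPhi h4
  have ht0 : 0 ≤ (U 0) ^ 2 := sq_nonneg _
  have ht1 : (U 0) ^ 2 ≤ 1 := by
    have := hU 0
    rw [← sq_abs]
    nlinarith [abs_nonneg (U 0)]
  have h7 := hc (fun j => U j.succ) (fun j => hU j.succ) ((U 0) ^ 2) ht0 ht1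
  set A := qsum (pick loc (fun j => U 0 ^ 2 * (σ⁻¹ * x j)) (fun j => U 0 ^ 2 * y j)
    fun j => U j.succ) (U 0 ^ 2) S with hA
  have h8 : ((U 0) ^ 2) ^ (2 ^ kap l S.length) ≤ (1 + γ ^ 2) * A := by
    have h9 : (1 + γ ^ 2) * (c * ((U 0) ^ 2) ^ (2 ^ kap l S.length)) ≤ (1 + γ ^ 2) * A :=
      mul_le_mul_of_nonneg_left h7 (by positivity)
    have h10 : 0 ≤ ((U 0) ^ 2) ^ (2 ^ kap l S.length) := by positivity
    nlinarith
  have h11 : 0 < σ * r ^ 2 ^ kap' m l S.length := by positivity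
  have h12 : 0 < r ^ 6 := by positivity
  nlinarith

end Pool.Agent.R537.RN
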